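import Mathlib

set_option autoImplicit false

/-!
# A counting lemma in the manner of Burton and Keane

A family of triples of disjoint nonempty subsets of a finite set `Y` which are pairwise compatible
(nested or disjoint as for the branches at two vertices of a tree) has at most `|Y|` members.
-/

namespace Pool.Agent.J4.H90.Lightning

/-- Compatibility of two triples of sets. -/
def Compat {α : Type*} (P Q : Fin 3 → Set α) : Prop :=
  (∃ i j, (∀ l, l ≠ i → P l ⊆ Q j) ∧ ∀ l, l ≠ j → Q l ⊆ P i) ∨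
  (∃ j, ∀ l, P l ⊆ Q j) ∨ (∃ i, ∀ l, Q l ⊆ P i) ∨ ∀ l m, Disjoint (P l) (Q m)

theorem Compat.inter {α : Type*} {P Q : Fin 3 → Set α} (h : Compat P Q) (Y : Set α) :
    Compat (fun l => P l ∩ Y) (fun l => Q l ∩ Y) := by
  rcases h with ⟨i, j, h1, h2⟩ | ⟨j, h⟩ | ⟨i, h⟩ | h
  · exact Or.inl ⟨i, j, fun l hl => Set.inter_subset_inter_left _ (h1 l hl),
      fun l hl => Set.inter_subset_inter_left _ (h2 l hl)⟩
  · exact Or.inr (Or.inl ⟨j, fun l => Set.inter_subset_inter_left _ (h l)⟩)
  · exact Or.inr (Or.inr (Or.inl ⟨i, fun l => Set.inter_subset_inter_left _ (h l)⟩))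
  · exact Or.inr (Or.inr (Or.inr fun l m =>
      (h l m).mono Set.inter_subset_left Set.inter_subset_left))

theorem two_others (i : Fin 3) : ∃ l m : Fin 3, l ≠ i ∧ m ≠ i ∧ l ≠ m := by
  revert i; decide

/-- Two compatible triples cannot have the same singleton as a member. -/
theorem no_common_singleton {α : Type*} {P Q : Fin 3 → Set α} (h : Compat P Q)
    (hP : ∀ l, (P l).Nonempty) (hQ : ∀ l, (Q l).Nonempty)
    (dP : ∀ l m, l ≠ m → Disjoint (P l) (P m)) (dQ : ∀ l m, l ≠ m → Disjoint (Q l) (Q m))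
    (y : α) (a b : Fin 3) (ha : P a = {y}) (hb : Q b = {y}) : False := by
  -- no two different members of a triple are inside `{y}`
  have key : ∀ (R : Fin 3 → Set α), (∀ l, (R l).Nonempty) →
      (∀ l m, l ≠ m → Disjoint (R l) (R m)) → ∀ l m, l ≠ m → R l ⊆ {y} → R m ⊆ {y} → False := by
    intro R hR dR l m hlm h1 h2
    obtain ⟨x, hx⟩ := hR l
    obtain ⟨z, hz⟩ := hR m
    have hx' := h1 hx
    have hz' := h2 hz
    rw [Set.mem_singleton_iff] at hx' hz'
    rw [hx'] at hx
    rw [hz'] at hz
    exact Set.disjoint_left.1 (dR l m hlm) hx hz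
  have yP : y ∈ P a := by rw [ha]; rfl
  have yQ : y ∈ Q b := by rw [hb]; rfl
  have uP : ∀ l, y ∈ P l → l = a := fun l hl => by
    by_contra hne
    exact Set.disjoint_left.1 (dP l a hne) hl yP
  have uQ : ∀ l, y ∈ Q l → l = b := fun l hl => by
    by_contra hne
    exact Set.disjoint_left.1 (dQ l b hne) hl yQ
  rcases h with ⟨i, j, h1, h2⟩ | ⟨j, h⟩ | ⟨i, h⟩ | h
  · by_cases hai : a = i
    · by_cases hbj : b = j
      · subst hai hbj
        obtain ⟨l, m, hl, hm, hlm⟩ := two_others a
        exact key P hP dP l m hlm (hb ▸ h1 l hl) (hb ▸ h1 m hm)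
      · have hia : i = a := uP i (h2 b hbj yQ)
        obtain ⟨l, m, hl, hm, hlm⟩ := two_others j
        exact key Q hQ dQ l m hlm (by rw [← ha, ← hia]; exact h2 l hl)
          (by rw [← ha, ← hia]; exact h2 m hm)
    · have hjb : j = b := uQ j (h1 a hai yP)
      obtain ⟨l, m, hl, hm, hlm⟩ := two_others i
      exact key P hP dP l m hlm (by rw [← hb, ← hjb]; exact h1 l hl)
        (by rw [← hb, ← hjb]; exact h1 m hm)
  · have hjb : j = b := uQ j (h a yP)
    exact key P hP dP 0 1 (by decide) (by rw [← hb, ← hjb]; exact h 0)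
      (by rw [← hb, ← hjb]; exact h 1)
  · have hia : i = a := uP i (h b yQ)
    exact key Q hQ dQ 0 1 (by decide) (by rw [← ha, ← hia]; exact h 0)
      (by rw [← ha, ← hia]; exact h 1)
  · exact Set.disjoint_left.1 (h a b) yP yQ

/-- **Counting lemma.** -/
theorem card_le {α ι : Type*} [DecidableEq α] [DecidableEq ι] (Y : Finset α) :
    ∀ (s : Finset ι) (P : ι → Fin 3 → Set α),
      (∀ b ∈ s, ∀ l, (P b l).Nonempty) → (∀ b ∈ s, ∀ l, P b l ⊆ Y) →
      (∀ b ∈ s, ∀ l m, l ≠ m → Disjoint (P b l) (P b m)) →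
      (∀ b ∈ s, ∀ c ∈ s, b ≠ c → Compat (P b) (P c)) → s.card ≤ Y.card := by
  induction Y using Finset.induction_on with
  | empty =>
    intro s P hne hsub _ _
    rw [Finset.card_empty, Nat.le_zero, Finset.card_eq_zero]
    by_contra hs
    obtain ⟨b, hb⟩ := Finset.nonempty_of_ne_empty hs
    obtain ⟨x, hx⟩ := hne b hb 0
    have := hsub b hb 0 hx
    simp at this
  | insert y Y hy ih =>
    intro s P hne hsub hd hc
    rw [Finset.card_insert_of_notMem hy]
    -- restrict to `Y`
    have hsubY : ∀ b ∈ s, ∀ l, P b l ∩ (Y : Set α) ⊆ Y := fun b _ l => Set.inter_subset_right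
    have hdY : ∀ b ∈ s, ∀ l m, l ≠ m →
        Disjoint (P b l ∩ (Y : Set α)) (P b m ∩ (Y : Set α)) := fun b hb l m hlm =>
      (hd b hb l m hlm).mono Set.inter_subset_left Set.inter_subset_left
    have hcY : ∀ b ∈ s, ∀ c ∈ s, b ≠ c →
        Compat (fun l => P b l ∩ (Y : Set α)) (fun l => P c l ∩ (Y : Set α)) :=
      fun b hb c hcs hbc => (hc b hb c hcs hbc).inter _
    have hneY : ∀ b ∈ s, ∀ l, P b l ≠ {y} → (P b l ∩ (Y : Set α)).Nonempty := by
      intro b hb l hl
      by_contra hemp
      rw [Set.not_nonempty_iff_eq_empty] at hemp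
      apply hl
      refine Set.Subset.antisymm ?_ ?_
      · intro x hx
        have h1 := hsub b hb l hx
        rw [Finset.coe_insert, Set.mem_insert_iff] at h1
        rcases h1 with h1 | h1
        · exact h1
        · exact absurd (show x ∈ P b l ∩ (Y : Set α) from ⟨hx, h1⟩) (by rw [hemp]; simp)
      · intro x hx
        rw [Set.mem_singleton_iff] at hx
        obtain ⟨z, hz⟩ := hne b hb l
        have h1 := hsub b hb l hz
        rw [Finset.coe_insert, Set.mem_insert_iff] at h1
        rcases h1 with h1 | h1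
        · rw [hx, ← h1]; exact hz
        · exact absurd (show z ∈ P b l ∩ (Y : Set α) from ⟨hz, h1⟩) (by rw [hemp]; simp)
    by_cases hex : ∃ b ∈ s, ∃ l, P b l = {y}
    · obtain ⟨b, hb, l, hl⟩ := hex
      have h1 : (s.erase b).card ≤ Y.card := by
        refine ih (s.erase b) (fun c l => P c l ∩ (Y : Set α)) ?_ ?_ ?_ ?_
        · intro c hcs m
          have hcs' := Finset.mem_of_mem_erase hcs
          refine hneY c hcs' m fun hm => ?_
          exact no_common_singleton (hc b hb c hcs' (Finset.ne_of_mem_erase hcs).symm)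
            (hne b hb) (hne c hcs') (hd b hb) (hd c hcs') y l m hl hm
        · intro c hcs
          exact hsubY c (Finset.mem_of_mem_erase hcs)
        · intro c hcs
          exact hdY c (Finset.mem_of_mem_erase hcs)
        · intro c hcs c' hcs'
          exact hcY c (Finset.mem_of_mem_erase hcs) c' (Finset.mem_of_mem_erase hcs')
      rw [Finset.card_erase_of_mem hb] at h1
      omega
    · push Not at hex
      have h1 : s.card ≤ Y.card := by
        refine ih s (fun c l => P c l ∩ (Y : Set α)) ?_ hsubY hdY hcY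
        intro c hcs m
        exact hneY c hcs m (hex c hcs m)
      omega

end Pool.Agent.J4.H90.Lightning
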