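import Pool.Agent.J4.H90.Lightning.Modify

set_option autoImplicit false

/-!
# Many disjoint trifurcations are impossible
-/

open Relation Set

namespace Pool.Agent.J4.H90.Lightning

/-- translation of configurations -/
def shift (x : ℤ × ℤ) (U : Config) : Config := fun z => U (z + x)

theorem adj_add {a b x : ℤ × ℤ} : Adj (a + x) (b + x) ↔ Adj a b := by
  unfold Adj
  simp only [Prod.fst_add, Prod.snd_add, add_sub_add_right_eq_sub]

theorem open_shift (ε : ℝ) (U : Config) (x a b : ℤ × ℤ) :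
    Open ε (shift x U) a b ↔ Open ε U (a + x) (b + x) := by
  unfold Open shift
  rw [adj_add]

/-- the translated set -/
def tr (x : ℤ × ℤ) (S : Set (ℤ × ℤ)) : Set (ℤ × ℤ) := {z | z - x ∈ S}

theorem mem_tr {x z : ℤ × ℤ} {S : Set (ℤ × ℤ)} : z ∈ tr x S ↔ z - x ∈ S := Iff.rfl

theorem rin_shift {ε : ℝ} {U : Config} {x : ℤ × ℤ} {S : Set (ℤ × ℤ)} {a b : ℤ × ℤ} :
    RIn (Open ε (shift x U)) S (a - x) (b - x) ↔ RIn (Open ε U) (tr x S) a b := by
  constructor
  · intro h
    have h1 := ReflTransGen.lift (p := fun a b => Open ε U a b ∧ a ∈ tr x S ∧ b ∈ tr x S)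
      (fun z => z + x) (fun a b hab => (⟨(open_shift ε U x a b).1 hab.1, by
        rw [mem_tr, add_sub_cancel_right]; exact hab.2.1, by
        rw [mem_tr, add_sub_cancel_right]; exact hab.2.2⟩ :
        Open ε U (a + x) (b + x) ∧ a + x ∈ tr x S ∧ b + x ∈ tr x S)) _ _ h
    simp only [Function.onFun, sub_add_cancel] at h1
    exact h1
  · intro h
    exact ReflTransGen.lift
      (p := fun a b => Open ε (shift x U) a b ∧ a ∈ S ∧ b ∈ S)
      (fun z => z - x) (fun a b hab => (⟨(open_shift ε U x _ _).2 (by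
        rw [sub_add_cancel, sub_add_cancel]; exact hab.1), hab.2.1, hab.2.2⟩ :
        Open ε (shift x U) (a - x) (b - x) ∧ a - x ∈ S ∧ b - x ∈ S)) _ _ h

theorem tri_shift {ε : ℝ} {U : Config} {x : ℤ × ℤ} {B : Set (ℤ × ℤ)} {E : Fin 3 → Set (ℤ × ℤ)}
    (h : Tri (Open ε (shift x U)) B E) : Tri (Open ε U) (tr x B) (fun l => tr x (E l)) := by
  have hcompl : (tr x B)ᶜ = tr x Bᶜ := rfl
  have hunion : ∀ l, tr x (E l) ∪ tr x B = tr x (E l ∪ B) := fun _ => rfl
  refine ⟨?_, ?_, ?_, ?_, ?_, ?_⟩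
  · obtain ⟨b, hb⟩ := h.ne
    exact ⟨b + x, by rw [mem_tr, add_sub_cancel_right]; exact hb⟩
  · intro l m hlm
    rw [Set.disjoint_left]
    intro z hz hz'
    exact Set.disjoint_left.1 (h.disj l m hlm) hz hz'
  · intro l z hz
    exact h.out l _ hz
  · intro l z hz y hy h1 h2
    rw [hcompl, ← rin_shift] at h1 h2
    exact h.sat l _ hz _ hy h1 h2
  · intro l z hz b hb
    rw [hunion, ← rin_shift, ← rin_shift]
    exact h.link l _ hz _ hb
  · intro b hb c hc
    rw [← rin_shift]
    exact h.conn _ hb _ hc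

theorem infinite_tr {x : ℤ × ℤ} {S : Set (ℤ × ℤ)} (h : S.Infinite) : (tr x S).Infinite := by
  intro hf
  apply h
  refine (hf.image (fun z => z - x)).subset fun z hz => ⟨z + x, ?_, ?_⟩
  · rw [mem_tr, add_sub_cancel_right]; exact hz
  · exact add_sub_cancel_right z x

theorem nm_add_le (a b : ℤ × ℤ) : nm (a + b) ≤ nm a + nm b := by
  unfold nm
  simp only [Prod.fst_add, Prod.snd_add]
  refine max_le ?_ ?_
  · exact (abs_add_le _ _).trans (add_le_add (le_max_left _ _) (le_max_left _ _))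
  · exact (abs_add_le _ _).trans (add_le_add (le_max_right _ _) (le_max_right _ _))

theorem nm_smul (M : ℕ) (k : ℤ × ℤ) : nm ((M * k.1, M * k.2) : ℤ × ℤ) = M * nm k := by
  unfold nm
  dsimp only
  rw [abs_mul, abs_mul, Nat.abs_cast, mul_max_of_nonneg _ _ (by positivity)]

/-- the sphere of radius `N` -/
noncomputable def sphere (N : ℕ) : Finset (ℤ × ℤ) := (box N).filter fun z => nm z = N

theorem card_sphere (N : ℕ) : (sphere N).card ≤ 4 * (2 * N + 1) := by
  classical
  have h : sphere N ⊆ (({(N : ℤ)} : Finset ℤ) ×ˢ Finset.Icc (-(N : ℤ)) N) ∪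
      (({-(N : ℤ)} : Finset ℤ) ×ˢ Finset.Icc (-(N : ℤ)) N) ∪
      ((Finset.Icc (-(N : ℤ)) N) ×ˢ ({(N : ℤ)} : Finset ℤ)) ∪
      ((Finset.Icc (-(N : ℤ)) N) ×ˢ ({-(N : ℤ)} : Finset ℤ)) := by
    intro z hz
    rw [sphere, Finset.mem_filter, mem_box, abs_le, abs_le] at hz
    obtain ⟨⟨h1, h2⟩, h3⟩ := hz
    simp only [Finset.mem_union, Finset.mem_product, Finset.mem_singleton, Finset.mem_Icc]
    unfold nm at h3
    rcases max_choice |z.1| |z.2| with h | h
    · rw [h] at h3
      rcases abs_eq (show (0 : ℤ) ≤ N by positivity) |>.1 h3 with h4 | h4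
      · exact Or.inl (Or.inl (Or.inl ⟨h4, h2⟩))
      · exact Or.inl (Or.inl (Or.inr ⟨h4, h2⟩))
    · rw [h] at h3
      rcases abs_eq (show (0 : ℤ) ≤ N by positivity) |>.1 h3 with h4 | h4
      · exact Or.inl (Or.inr ⟨h1, h4⟩)
      · exact Or.inr ⟨h1, h4⟩
  have hI : (Finset.Icc (-(N : ℤ)) N).card = 2 * N + 1 := by
    rw [Int.card_Icc]; omega
  refine (Finset.card_le_card h).trans ?_
  refine (Finset.card_union_le _ _).trans ?_
  have h1 := Finset.card_union_le (((({(N : ℤ)} : Finset ℤ) ×ˢ Finset.Icc (-(N : ℤ)) N) ∪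
      (({-(N : ℤ)} : Finset ℤ) ×ˢ Finset.Icc (-(N : ℤ)) N)))
      ((Finset.Icc (-(N : ℤ)) N) ×ˢ ({(N : ℤ)} : Finset ℤ))
  have h2 := Finset.card_union_le ((({(N : ℤ)} : Finset ℤ) ×ˢ Finset.Icc (-(N : ℤ)) N))
      ((({-(N : ℤ)} : Finset ℤ) ×ˢ Finset.Icc (-(N : ℤ)) N))
  simp only [Finset.card_product, Finset.card_singleton, hI] at h1 h2 ⊢
  omega

theorem card_box (n : ℕ) : (box n).card = (2 * n + 1) ^ 2 := by
  unfold box
  rw [Finset.card_product, Int.card_Icc, sq]
  congr 1 <;> omega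

/-- **Deterministic counting.** At most `|sphere|` of the translates of the box by the vectors
`(2n+1) k` with `|k| ≤ R` are trifurcations with infinite branches. -/
theorem count_tri {ε : ℝ} {U : Config} {n R : ℕ} (s : Finset (ℤ × ℤ)) (hs : s ⊆ box R)
    (h : ∀ k ∈ s, ∃ E : Fin 3 → Set (ℤ × ℤ),
      Tri (Open ε (shift (((2 * n + 1 : ℕ) : ℤ) * k.1, ((2 * n + 1 : ℕ) : ℤ) * k.2) U))
        (box n : Set (ℤ × ℤ)) E ∧ ∀ l, (E l).Infinite) :
    s.card ≤ 4 * (2 * ((2 * n + 1) * R + n + 1) + 1) := by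
  classical
  set M : ℕ := 2 * n + 1 with hM
  set N : ℕ := M * R + n + 1 with hN
  refine le_trans ?_ (card_sphere N)
  choose! E hE hinf using h
  set c : ℤ × ℤ → ℤ × ℤ := fun k => ((M : ℤ) * k.1, (M : ℤ) * k.2) with hc
  refine card_le (sphere N) s (fun k l => tr (c k) (E k l) ∩ (sphere N : Set (ℤ × ℤ))) ?_ ?_ ?_ ?_
  · intro k hk l
    have hT := tri_shift (hE k hk)
    obtain ⟨b, hb⟩ := hT.ne
    -- a far away vertex of the branch
    obtain ⟨x, hx, hxN⟩ : ∃ x ∈ tr (c k) (E k l), (N : ℤ) < nm x := by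
      by_contra hcon
      push Not at hcon
      exact infinite_tr (hinf k hk l) ((finite_nm_le N).subset hcon)
    have hkR : nm k ≤ R := mem_box_nm.1 (hs hk)
    have hin : ∀ v ∈ tr (c k) (box n : Set (ℤ × ℤ)), nm v < N := by
      intro v hv
      have h1 : nm (v - c k) ≤ n := mem_box_nm.1 hv
      have h2 := nm_add_le (v - c k) (c k)
      rw [sub_add_cancel] at h2
      have h3 : nm (c k) = M * nm k := nm_smul M k
      have h4 : (M : ℤ) * nm k ≤ M * R := mul_le_mul_of_nonneg_left hkR (by positivity)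
      have h5 : (N : ℤ) = M * R + n + 1 := by rw [hN]; push_cast; ring
      omega
    obtain ⟨v, hv, hvN⟩ := crossing (fun a b hab => hab.1) (hT.link l x hx b hb).1 (Or.inl hx)
      hxN.le (hin b hb).le
    refine ⟨v, ?_, ?_⟩
    · rcases hv with hv | hv
      · exact hv
      · exact absurd (hin v hv) (by omega)
    · rw [Finset.mem_coe, sphere, Finset.mem_filter, mem_box_nm]
      exact ⟨hvN.le, hvN⟩
  · intro k _ l
    exact inter_subset_right
  · intro k hk l m hlm
    exact ((tri_shift (hE k hk)).disj l m hlm).mono inter_subset_left inter_subset_left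
  · intro k hk k' hk' hkk'
    apply Compat.inter
    refine (tri_shift (hE k hk)).compat (tri_shift (hE k' hk')) ?_
    rw [Set.disjoint_left]
    intro z hz hz'
    have h1 : z - c k ∈ box n := hz
    have h2 : z - c k' ∈ box n := hz'
    rw [mem_box, abs_le, abs_le] at h1 h2
    simp only [hc, Prod.fst_sub, Prod.snd_sub] at h1 h2
    have hM' : (M : ℤ) = 2 * n + 1 := by rw [hM]; push_cast; ring
    have e1 : k.1 = k'.1 := by
      by_contra hne
      rcases lt_or_gt_of_ne hne with h | h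
      · have : (M : ℤ) * (k.1 + 1) ≤ M * k'.1 := mul_le_mul_of_nonneg_left (by omega) (by positivity)
        rw [mul_add, mul_one] at this
        omega
      · have : (M : ℤ) * (k'.1 + 1) ≤ M * k.1 := mul_le_mul_of_nonneg_left (by omega) (by positivity)
        rw [mul_add, mul_one] at this
        omega
    have e2 : k.2 = k'.2 := by
      by_contra hne
      rcases lt_or_gt_of_ne hne with h | h
      · have : (M : ℤ) * (k.2 + 1) ≤ M * k'.2 := mul_le_mul_of_nonneg_left (by omega) (by positivity)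
        rw [mul_add, mul_one] at this
        omega
      · have : (M : ℤ) * (k'.2 + 1) ≤ M * k.2 := mul_le_mul_of_nonneg_left (by omega) (by positivity)
        rw [mul_add, mul_one] at this
        omega
    exact hkk' (Prod.ext e1 e2)

end Pool.Agent.J4.H90.Lightning
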