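import Mathlib

set_option autoImplicit false

/-!
# The Lightning Model on `ℤ²`
-/

open MeasureTheory

namespace Pool.Agent.J4.H90.Lightning

/-- A configuration: a potential in `[0,1]` for each vertex of `ℤ²`. -/
abbrev Config : Type := ℤ × ℤ → unitInterval

/-- The law of the i.i.d. potentials, each uniform on `[0,1]`. -/
noncomputable def law : Measure Config :=
  Measure.infinitePi (fun _ : ℤ × ℤ => (volume : Measure unitInterval))

instance : IsProbabilityMeasure law := by unfold law; infer_instance

/-- Nearest neighbours of `ℤ²`. -/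
def Adj (a b : ℤ × ℤ) : Prop := |a.1 - b.1| + |a.2 - b.2| = 1

/-- The directed edge `(a, b)` is open: `U_b < U_a + ε`. -/
def Open (ε : ℝ) (U : Config) (a b : ℤ × ℤ) : Prop := Adj a b ∧ (U b : ℝ) < U a + ε

/-- `a → b`: there is a path of open edges from `a` to `b` (possibly of length `0`). -/
def Reach (ε : ℝ) (U : Config) (a b : ℤ × ℤ) : Prop := Relation.ReflTransGen (Open ε U) a b

/-- The strong cluster of `a`: all `b` with `a → b` and `b → a`. -/
def cluster (ε : ℝ) (U : Config) (a : ℤ × ℤ) : Set (ℤ × ℤ) := {b | Reach ε U a b ∧ Reach ε U b a}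

/-- The set of all infinite strong clusters. Its cardinality is the number `N`. -/
def infiniteClusters (ε : ℝ) (U : Config) : Set (Set (ℤ × ℤ)) :=
  {S | S.Infinite ∧ ∃ a, S = cluster ε U a}

end Pool.Agent.J4.H90.Lightning
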