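import Pool.Agent.J4.H90.Lightning.Prob

set_option autoImplicit false

/-!
# The 0-1 law for translation invariant events, and uniqueness
-/

open MeasureTheory Relation Set Filter
open scoped ENNReal

namespace Pool.Agent.J4.H90.Lightning

theorem cyl_indep {s : Finset (ℤ × ℤ)} {S : Set (s → unitInterval)} (hS : MeasurableSet S)
    {x : ℤ × ℤ} (hx : ∀ z ∈ s, z + x ∉ s) :
    law (cylinder s S ∩ shift x ⁻¹' cylinder s S) = law (cylinder s S) * law (cylinder s S) := by
  classical
  set T : Finset (ℤ × ℤ) := s.image (fun z => z + x) with hT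
  have hdisj : Disjoint s T := by
    rw [Finset.disjoint_left]
    intro z hz hzT
    rw [hT, Finset.mem_image] at hzT
    obtain ⟨w, hw, rfl⟩ := hzT
    exact hx w hw hz
  have hind : ProbabilityTheory.iIndepFun (fun (z : ℤ × ℤ) (U : Config) => U z) law :=
    ProbabilityTheory.iIndepFun_infinitePi (X := fun _ u => u) (fun _ => measurable_id)
  have h1 := hind.indepFun_finset s T hdisj (fun z => measurable_pi_apply z)
  set S' : Set (T → unitInterval) := {f | (fun i : s => f ⟨i.1 + x, by
    rw [hT]; exact Finset.mem_image_of_mem _ i.2⟩) ∈ S} with hS'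
  have hS'm : MeasurableSet S' :=
    (measurable_pi_iff.2 fun i => measurable_pi_apply _) hS
  have h2 := (ProbabilityTheory.indepFun_iff_measure_inter_preimage_eq_mul.1 h1) S S' hS hS'm
  have e1 : (fun (a : Config) (i : s) => a i) ⁻¹' S = cylinder s S := rfl
  have e2 : (fun (a : Config) (i : T) => a i) ⁻¹' S' = shift x ⁻¹' cylinder s S := rfl
  rw [e1, e2] at h2
  rw [h2]
  congr 1
  have hCm : MeasurableSet (cylinder s S : Set Config) := MeasurableSet.cylinder s hS
  rw [← Measure.map_apply (measurable_shift x) hCm, map_shift]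

/-- **0-1 law.** -/
theorem zero_one {A : Set Config} (hA : MeasurableSet A) (hinv : ∀ x, shift x ⁻¹' A = A) :
    law A = 0 ∨ law A = 1 := by
  have key : ∀ δ : ℝ, 0 < δ → |law.real A - law.real A ^ 2| ≤ 4 * δ := by
    intro δ hδ
    obtain ⟨C, hC, hCA⟩ := exists_measure_symmDiff_lt_of_generateFrom_isSetRing (μ := law)
      (isSetRing_measurableCylinders (α := fun _ : ℤ × ℤ => unitInterval))
      ⟨{univ}, countable_singleton _, by
        rw [singleton_subset_iff]; exact univ_mem_measurableCylinders _, by simp⟩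
      generateFrom_measurableCylinders.symm hA (ENNReal.ofReal_pos.2 hδ)
    rw [mem_measurableCylinders] at hC
    obtain ⟨s, S, hS, rfl⟩ := hC
    have hCm : MeasurableSet (cylinder s S : Set Config) := MeasurableSet.cylinder s hS
    -- a translation which makes the cylinders independent
    obtain ⟨N, hN⟩ : ∃ N : ℕ, ∀ z ∈ s, nm z ≤ N := by
      refine ⟨(s.sup fun z => (nm z).toNat), fun z hz => ?_⟩
      have := Finset.le_sup (f := fun z => (nm z).toNat) hz
      omega
    set x : ℤ × ℤ := (2 * N + 1, 0) with hx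
    have hxs : ∀ z ∈ s, z + x ∉ s := by
      intro z hz hzx
      have h1 := hN z hz
      have h2 := hN _ hzx
      unfold nm at h1 h2
      rw [max_le_iff, abs_le, abs_le] at h1 h2
      simp only [hx, Prod.fst_add, Prod.snd_add] at h2
      omega
    have hind := cyl_indep hS hxs
    set C : Set Config := (cylinder s S : Set Config) with hCdef
    have hC2m : MeasurableSet (shift x ⁻¹' C) := measurable_shift x hCm
    set D := C ∩ shift x ⁻¹' C with hD
    have hDm : MeasurableSet D := hCm.inter hC2m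
    have hreal : law.real D = law.real C ^ 2 := by
      rw [measureReal_def, hind, ENNReal.toReal_mul, sq]; rfl
    have hsd : law.real (symmDiff C A) ≤ δ := by
      rw [measureReal_def]
      exact ENNReal.toReal_le_of_le_ofReal hδ.le hCA.le
    have hsd2 : law.real (symmDiff (shift x ⁻¹' C) A) ≤ δ := by
      have h1 : symmDiff (shift x ⁻¹' C) A = shift x ⁻¹' (symmDiff C A) := by
        conv_lhs => rw [← hinv x]
        rfl
      rw [h1, measureReal_def, ← Measure.map_apply (measurable_shift x) (hCm.symmDiff hA), map_shift]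
      exact hsd
    have hsd3 : law.real (symmDiff D A) ≤ 2 * δ := by
      have hsub : symmDiff D A ⊆ symmDiff C A ∪ symmDiff (shift x ⁻¹' C) A := by
        intro U hU
        rw [Set.mem_symmDiff] at hU
        rw [mem_union, Set.mem_symmDiff, Set.mem_symmDiff]
        rcases hU with ⟨h1, h2⟩ | ⟨h1, h2⟩
        · exact Or.inl (Or.inl ⟨h1.1, h2⟩)
        · by_cases h3 : U ∈ C
          · by_cases h4 : U ∈ shift x ⁻¹' C
            · exact absurd ⟨h3, h4⟩ h2
            · exact Or.inr (Or.inr ⟨h1, h4⟩)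
          · exact Or.inl (Or.inr ⟨h1, h3⟩)
      calc law.real (symmDiff D A) ≤ law.real (symmDiff C A ∪ symmDiff (shift x ⁻¹' C) A) :=
            measureReal_mono hsub
        _ ≤ law.real (symmDiff C A) + law.real (symmDiff (shift x ⁻¹' C) A) :=
            measureReal_union_le _ _
        _ ≤ 2 * δ := by linarith
    have d1 : |law.real C - law.real A| ≤ δ :=
      (abs_measureReal_sub_le_measureReal_symmDiff hCm.nullMeasurableSet
        hA.nullMeasurableSet).trans hsd
    have d2 : |law.real D - law.real A| ≤ 2 * δ :=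
      (abs_measureReal_sub_le_measureReal_symmDiff hDm.nullMeasurableSet
        hA.nullMeasurableSet).trans hsd3
    rw [hreal] at d2
    have b1 : law.real C ≤ 1 := measureReal_le_one
    have b2 : law.real A ≤ 1 := measureReal_le_one
    have b3 : 0 ≤ law.real C := measureReal_nonneg
    have b4 : 0 ≤ law.real A := measureReal_nonneg
    rw [abs_le] at d1 d2 ⊢
    constructor <;> nlinarith
  have h0 : law.real A - law.real A ^ 2 = 0 := by
    rw [← abs_nonpos_iff]
    refine le_of_forall_pos_le_add fun η hη => ?_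
    have := key (η / 4) (by positivity)
    linarith
  have h1 : law.real A * (1 - law.real A) = 0 := by linarith
  rcases mul_eq_zero.1 h1 with h | h
  · left
    rw [measureReal_def, ENNReal.toReal_eq_zero_iff] at h
    exact h.resolve_right (measure_ne_top _ _)
  · right
    have h2 : (law A).toReal = 1 := by
      have : law.real A = 1 := by linarith
      exact this
    rw [← ENNReal.ofReal_toReal (measure_ne_top law A), h2, ENNReal.ofReal_one]

/-- there are two different infinite clusters -/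
def evD (ε : ℝ) : Set Config :=
  {U | ∃ a b : ℤ × ℤ, (cluster ε U a).Infinite ∧ (cluster ε U b).Infinite ∧ b ∉ cluster ε U a}

/-- two different infinite clusters meet the box -/
def evDn (ε : ℝ) (n : ℕ) : Set Config :=
  {U | ∃ a b : ℤ × ℤ, (a ∈ box n ∧ b ∈ box n) ∧ (cluster ε U a).Infinite ∧
    (cluster ε U b).Infinite ∧ b ∉ cluster ε U a}

theorem meas_evDn (ε : ℝ) (n : ℕ) : MeasurableSet (evDn ε n) := by
  have : evDn ε n = ⋃ a : ℤ × ℤ, ⋃ b : ℤ × ℤ, ({_U | a ∈ box n ∧ b ∈ box n} ∩
      ({U : Config | (cluster ε U a).Infinite} ∩ ({U : Config | (cluster ε U b).Infinite} ∩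
        {U | b ∈ cluster ε U a}ᶜ))) := by
    ext U
    simp [evDn]
  rw [this]
  exact MeasurableSet.iUnion fun a => MeasurableSet.iUnion fun b => (MeasurableSet.const _).inter
    ((meas_inf ε a).inter ((meas_inf ε b).inter (meas_cluster ε a b).compl))

theorem evD_eq (ε : ℝ) : evD ε = ⋃ n, evDn ε n := by
  ext U
  simp only [evD, evDn, mem_iUnion, mem_ofPred_eq]
  constructor
  · rintro ⟨a, b, h⟩
    refine ⟨(max (nm a) (nm b)).toNat, a, b, ⟨?_, ?_⟩, h⟩
    · rw [mem_box_nm]; have := le_max_left (nm a) (nm b); omega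
    · rw [mem_box_nm]; have := le_max_right (nm a) (nm b); omega
  · rintro ⟨n, a, b, -, h⟩
    exact ⟨a, b, h⟩

theorem evDn_mono (ε : ℝ) {m n : ℕ} (h : m ≤ n) : evDn ε m ⊆ evDn ε n := by
  rintro U ⟨a, b, ⟨h1, h2⟩, h3⟩
  refine ⟨a, b, ⟨?_, ?_⟩, h3⟩
  · have := mem_box_nm.1 h1
    exact mem_box_nm.2 (this.trans (by exact_mod_cast h))
  · have := mem_box_nm.1 h2
    exact mem_box_nm.2 (this.trans (by exact_mod_cast h))

theorem reach_shift {ε : ℝ} {U : Config} {x a b : ℤ × ℤ} :
    Reach ε (shift x U) a b ↔ Reach ε U (a + x) (b + x) := by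
  have h := rin_shift (ε := ε) (U := U) (x := x) (S := univ) (a := a + x) (b := b + x)
  rw [add_sub_cancel_right, add_sub_cancel_right] at h
  have e : ∀ (V : Config) (c d : ℤ × ℤ), RIn (Open ε V) univ c d ↔ Reach ε V c d := fun V c d =>
    ⟨fun h => h.reach, fun h => rtg_mono (fun _ _ h => ⟨h, mem_univ _, mem_univ _⟩) h⟩
  have e2 : tr x univ = univ := rfl
  rw [e2, e, e] at h
  exact h

theorem cluster_shift {ε : ℝ} {U : Config} {x a : ℤ × ℤ} :
    cluster ε U (a + x) = tr x (cluster ε (shift x U) a) := by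
  ext b
  rw [mem_tr]
  unfold cluster
  simp only [mem_ofPred_eq]
  rw [reach_shift, reach_shift, sub_add_cancel]

theorem evD_inv (ε : ℝ) (x : ℤ × ℤ) : shift x ⁻¹' evD ε = evD ε := by
  have hfin : ∀ (V : Config) (a : ℤ × ℤ), (cluster ε V (a + x)).Infinite ↔
      (cluster ε (shift x V) a).Infinite := by
    intro V a
    rw [cluster_shift]
    refine ⟨fun h hf => h ?_, infinite_tr⟩
    refine (hf.image (fun z => z + x)).subset fun z hz => ⟨z - x, hz, sub_add_cancel z x⟩
  have hmem : ∀ (V : Config) (a b : ℤ × ℤ), b + x ∈ cluster ε V (a + x) ↔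
      b ∈ cluster ε (shift x V) a := by
    intro V a b
    rw [cluster_shift, mem_tr, add_sub_cancel_right]
  ext U
  simp only [mem_preimage, evD, mem_ofPred_eq]
  constructor
  · rintro ⟨a, b, h1, h2, h3⟩
    exact ⟨a + x, b + x, (hfin U a).2 h1, (hfin U b).2 h2, fun h => h3 ((hmem U a b).1 h)⟩
  · rintro ⟨a, b, h1, h2, h3⟩
    refine ⟨a - x, b - x, (hfin U _).1 ?_, (hfin U _).1 ?_, fun h => h3 ?_⟩
    · rw [sub_add_cancel]; exact h1
    · rw [sub_add_cancel]; exact h2
    · have := (hmem U (a - x) (b - x)).2 h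
      rwa [sub_add_cancel, sub_add_cancel] at this

/-- the event that all is as desired -/
theorem merged {ε δ : ℝ} {n L : ℕ} (hL : 0 < L) (hn : 4 * L ≤ n) (hLε : 1 / (L : ℝ) ≤ ε)
    (hδ : 4 * δ ≤ ε) (hδ0 : 0 < δ) {U : Config}
    (hU : U ∈ evT n L δ ((evDn ε n ∩ (⋃ m, evH ε m)ᶜ) ∩ evK L δ n)) : U ∉ evD ε := by
  obtain ⟨hG, hin⟩ := hU
  obtain ⟨V, hV⟩ := nonempty_of_measure_ne_zero hG
  obtain ⟨⟨⟨a, b, ⟨ha, hb⟩, hainf, hbinf, hab⟩, hH⟩, hK⟩ := hV
  rw [mem_iInter₂] at hin
  have hcor : ∀ z ∈ cornerSet n L, |(U z : ℝ) - 1 / 2| < δ := by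
    intro z hz
    have h1 := hK z hz
    have h2 : z ∉ box n := by
      rw [cornerSet, Finset.mem_filter] at hz
      rw [mem_box_nm]
      omega
    rw [mix_off _ _ _ h2] at h1
    exact h1
  obtain ⟨h1, h2⟩ := good_box hL hn hLε hδ hδ0 U hin hcor
  set U₀ := mix (box n) (U, V) with hU₀
  have hagree : ∀ z, z ∉ (box n : Set (ℤ × ℤ)) → U z = U₀ z := fun z hz => (mix_off _ _ _ hz).symm
  -- every infinite cluster of `U₀` is one of the two
  have honly : ∀ c, (cluster ε U₀ c).Infinite → c ∈ cluster ε U₀ a ∨ c ∈ cluster ε U₀ b := by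
    intro c hc
    by_contra hcon
    push Not at hcon
    apply hH
    rw [mem_iUnion]
    set v : Fin 3 → ℤ × ℤ := ![a, b, c] with hv
    refine ⟨(max (nm a) (max (nm b) (nm c))).toNat, v, ?_, ?_, ?_⟩
    · intro l
      rw [mem_box_nm]
      have h1 := le_max_left (nm a) (max (nm b) (nm c))
      have h2 := le_max_right (nm a) (max (nm b) (nm c))
      have h3 := le_max_left (nm b) (nm c)
      have h4 := le_max_right (nm b) (nm c)
      fin_cases l
      · show nm a ≤ _; omega
      · show nm b ≤ _; omega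
      · show nm c ≤ _; omega
    · intro l
      fin_cases l
      exacts [hainf, hbinf, hc]
    · have hsymm : ∀ p q, p ∉ cluster ε U₀ q → q ∉ cluster ε U₀ p := fun p q h h' =>
        h ⟨h'.2, h'.1⟩
      intro l m hlm
      revert hlm
      fin_cases l <;> fin_cases m <;> intro hlm
      all_goals first
        | exact absurd rfl hlm
        | exact hab
        | exact hsymm _ _ hab
        | exact hcon.1
        | exact hsymm _ _ hcon.1
        | exact hcon.2
        | exact hsymm _ _ hcon.2
  -- every infinite cluster of `U` meets the box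
  have hmeet : ∀ c, (cluster ε U c).Infinite → a ∈ cluster ε U c := by
    intro c hc
    by_cases hd : Disjoint (cluster ε U c) (box n : Set (ℤ × ℤ))
    · have hsub := cluster_sub hagree hd
      have hc0 : (cluster ε U₀ c).Infinite := hc.mono hsub
      have hcU : c ∉ (box n : Set (ℤ × ℤ)) := Set.disjoint_left.1 hd (cluster_refl ε U c)
      rcases honly c hc0 with h | h
      · have := link_of_agree hagree h1 h2 ha h (b := a) ha
        exact ⟨this.1.reach, this.2.reach⟩
      · have := link_of_agree hagree h1 h2 hb h (b := a) ha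
        exact ⟨this.1.reach, this.2.reach⟩
    · rw [Set.not_disjoint_iff] at hd
      obtain ⟨d, hd, hdB⟩ := hd
      exact ⟨hd.1.trans (h1 d hdB a ha).reach, (h1 a ha d hdB).reach.trans hd.2⟩
  rintro ⟨c, d, hc, hd, hcd⟩
  have e1 := hmeet c hc
  have e2 := hmeet d hd
  exact hcd ⟨e1.1.trans e2.2, e2.1.trans e1.2⟩

theorem law_D {ε : ℝ} (hε : 0 < ε) : law (evD ε) = 0 := by
  have hDm : MeasurableSet (evD ε) := by
    rw [evD_eq]
    exact MeasurableSet.iUnion fun n => meas_evDn ε n
  rcases zero_one hDm (evD_inv ε) with h | h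
  · exact h
  exfalso
  have hDc : law (evD ε)ᶜ = 0 := by
    rw [prob_compl_eq_zero_iff hDm]
    exact h
  obtain ⟨L, hL⟩ := exists_nat_gt (1 / ε)
  have hL0 : 0 < L := by
    have : (0 : ℝ) < L := lt_trans (by positivity) hL
    exact_mod_cast this
  have hL0' : (0 : ℝ) < L := by exact_mod_cast hL0
  have hLε : 1 / (L : ℝ) ≤ ε := by
    rw [div_lt_iff₀ hε] at hL
    rw [div_le_iff₀ hL0']
    linarith
  have hδ0 : 0 < ε / 4 := by positivity
  have h1 := law_limsup_evK L hδ0
  have hmeas : MeasurableSet (limsup (evK L (ε / 4)) atTop) :=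
    MeasurableSet.measurableSet_limsup (meas_evK L (ε / 4))
  have h2 : law (limsup (evK L (ε / 4)) atTop)ᶜ = 0 := by
    rw [prob_compl_eq_zero_iff hmeas]
    exact h1
  have hHU : law (⋃ m, evH ε m) = 0 := measure_iUnion_null fun m => law_H hε m
  have hHm : MeasurableSet (⋃ m, evH ε m) := MeasurableSet.iUnion fun m => meas_evH ε m
  -- the events with a merging box are null
  have h3 : ∀ n, 4 * L ≤ n → law ((evDn ε n ∩ (⋃ m, evH ε m)ᶜ) ∩ evK L (ε / 4) n) = 0 := by
    intro n hn
    by_contra hne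
    have hm : MeasurableSet ((evDn ε n ∩ (⋃ m, evH ε m)ᶜ) ∩ evK L (ε / 4) n) :=
      ((meas_evDn ε n).inter hHm.compl).inter (meas_evK L (ε / 4) n)
    apply law_evT_ne_zero n L hδ0 hm hne
    exact measure_mono_null (fun U hU => merged hL0 hn hLε (by linarith) hδ0 hU) hDc
  have hsub : evD ε ⊆ (limsup (evK L (ε / 4)) atTop)ᶜ ∪ ((⋃ m, evH ε m) ∪
      ⋃ n : ℕ, ⋃ _ : 4 * L ≤ n, ((evDn ε n ∩ (⋃ m, evH ε m)ᶜ) ∩ evK L (ε / 4) n)) := by
    intro U hU
    by_cases hUl : U ∈ limsup (evK L (ε / 4)) atTop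
    · by_cases hUH : U ∈ ⋃ m, evH ε m
      · exact Or.inr (Or.inl hUH)
      · rw [evD_eq, mem_iUnion] at hU
        obtain ⟨n, hn⟩ := hU
        rw [mem_limsup_iff_frequently_mem, frequently_atTop] at hUl
        obtain ⟨m, hm, hUm⟩ := hUl (max n (4 * L))
        right; right
        rw [mem_iUnion₂]
        exact ⟨m, (le_max_right _ _).trans hm, ⟨evDn_mono ε ((le_max_left _ _).trans hm) hn, hUH⟩,
          hUm⟩
    · exact Or.inl hUl
  have h4 : law (evD ε) = 0 := by
    refine measure_mono_null hsub (measure_union_null h2 (measure_union_null hHU ?_))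
    exact measure_iUnion_null fun n => measure_iUnion_null fun hn => h3 n hn
  rw [h4] at h
  exact zero_ne_one h

theorem encard_le_one {ε : ℝ} {U : Config} (h : U ∉ evD ε) :
    (infiniteClusters ε U).encard ≤ 1 := by
  rw [Set.encard_le_one_iff]
  rintro A B ⟨hA, a, rfl⟩ ⟨hB, b, rfl⟩
  by_contra hne
  exact h ⟨a, b, hA, hB, fun hab => hne (cluster_eq hab).symm⟩

/-- **Uniqueness.** -/
theorem unique {ε : ℝ} (hε : 0 ≤ ε) : ∀ᵐ U ∂law, (infiniteClusters ε U).encard ≤ 1 := by
  rcases hε.eq_or_lt with h | h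
  · rw [← h]
    refine Filter.Eventually.of_forall fun U => ?_
    rw [main_zero, Set.encard_empty]
    exact bot_le
  · filter_upwards [measure_eq_zero_iff_ae_notMem.1 (law_D h)] with U hU
    exact encard_le_one hU

end Pool.Agent.J4.H90.Lightning
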