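import Pool.Agent.J4.H90.Lightning.Defs
import Pool.Agent.J4.H90.Lightning.Count

set_option autoImplicit false

/-!
# Trifurcations of directed graphs
-/

open Relation Set

namespace Pool.Agent.J4.H90.Lightning

theorem rtg_mono {V : Type*} {r p : V → V → Prop} (h : ∀ a b, r a b → p a b) {x y : V}
    (hxy : ReflTransGen r x y) : ReflTransGen p x y :=
  ReflTransGen.mono h x y hxy

/-- reachable by a path inside `S` -/
def RIn {V : Type*} (r : V → V → Prop) (S : Set V) (x y : V) : Prop :=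
  ReflTransGen (fun a b => r a b ∧ a ∈ S ∧ b ∈ S) x y

theorem RIn.mono {V : Type*} {r : V → V → Prop} {S T : Set V} (h : S ⊆ T) {x y : V}
    (hxy : RIn r S x y) : RIn r T x y :=
  rtg_mono (fun _ _ hab => ⟨hab.1, h hab.2.1, h hab.2.2⟩) hxy

theorem RIn.reach {V : Type*} {r : V → V → Prop} {S : Set V} {x y : V}
    (hxy : RIn r S x y) : ReflTransGen r x y :=
  rtg_mono (fun _ _ hab => hab.1) hxy

/-- `B` is strongly connected and each of the three sets `E l` is disjoint from `B`, strongly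
connected to `B` inside `E l ∪ B`, and a union of strong components of the complement of `B`. -/
structure Tri {V : Type*} (r : V → V → Prop) (B : Set V) (E : Fin 3 → Set V) : Prop where
  ne : B.Nonempty
  disj : ∀ l m, l ≠ m → Disjoint (E l) (E m)
  out : ∀ l, ∀ x ∈ E l, x ∉ B
  sat : ∀ l, ∀ x ∈ E l, ∀ y, y ∉ B → RIn r Bᶜ x y → RIn r Bᶜ y x → y ∈ E l
  link : ∀ l, ∀ x ∈ E l, ∀ b ∈ B, RIn r (E l ∪ B) x b ∧ RIn r (E l ∪ B) b x
  conn : ∀ b ∈ B, ∀ c ∈ B, RIn r B b c

theorem Tri.dichotomy {V : Type*} {r : V → V → Prop} {B C : Set V} {E F : Fin 3 → Set V}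
    (hB : Tri r B E) (hC : Tri r C F) (hBC : Disjoint B C) :
    (∃ i, C ⊆ E i) ∨ ∀ i, Disjoint C (E i) := by
  by_cases h : ∃ i, ¬ Disjoint C (E i)
  · obtain ⟨i, hi⟩ := h
    rw [Set.not_disjoint_iff] at hi
    obtain ⟨c, hc, hci⟩ := hi
    refine Or.inl ⟨i, fun d hd => ?_⟩
    have hsub : C ⊆ Bᶜ := fun x hx hxB => Set.disjoint_left.1 hBC hxB hx
    exact hB.sat i c hci d (hsub hd) ((hC.conn c hc d hd).mono hsub)
      ((hC.conn d hd c hc).mono hsub)
  · push Not at h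
    exact Or.inr h

theorem Tri.step {V : Type*} {r : V → V → Prop} {B C : Set V} {E F : Fin 3 → Set V}
    (hB : Tri r B E) (hC : Tri r C F) (hBC : Disjoint B C) (l : Fin 3)
    (hl : Disjoint C (E l)) :
    (∀ j, B ⊆ F j → E l ⊆ F j) ∧ ((∀ j, Disjoint B (F j)) → ∀ j, Disjoint (E l) (F j)) := by
  obtain ⟨b, hb⟩ := hB.ne
  have hbC : b ∉ C := fun h => Set.disjoint_left.1 hBC hb h
  have hsub : E l ∪ B ⊆ Cᶜ := by
    rintro x (hx | hx) hxC
    · exact Set.disjoint_left.1 hl hxC hx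
    · exact Set.disjoint_left.1 hBC hx hxC
  have key : ∀ x ∈ E l, RIn r Cᶜ x b ∧ RIn r Cᶜ b x := fun x hx =>
    ⟨(hB.link l x hx b hb).1.mono hsub, (hB.link l x hx b hb).2.mono hsub⟩
  refine ⟨fun j hj x hx => ?_, fun hd j => ?_⟩
  · exact hC.sat j b (hj hb) x (hsub (Or.inl hx)) (key x hx).2 (key x hx).1
  · rw [Set.disjoint_left]
    intro x hx hxF
    exact Set.disjoint_left.1 (hd j) hb (hC.sat j x hxF b hbC (key x hx).1 (key x hx).2)

/-- Two disjoint trifurcations are compatible. -/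
theorem Tri.compat {V : Type*} {r : V → V → Prop} {B C : Set V} {E F : Fin 3 → Set V}
    (hB : Tri r B E) (hC : Tri r C F) (hBC : Disjoint B C) : Compat E F := by
  have off : ∀ {B C : Set V} {E F : Fin 3 → Set V}, Tri r B E → Tri r C F →
      ∀ i, C ⊆ E i → ∀ l, l ≠ i → Disjoint C (E l) := by
    intro B C E F hB hC i hi l hl
    exact (hB.disj i l (Ne.symm hl)).mono_left hi
  rcases hB.dichotomy hC hBC with ⟨i, hi⟩ | hi <;> rcases hC.dichotomy hB hBC.symm with ⟨j, hj⟩ | hj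
  · exact Or.inl ⟨i, j, fun l hl => (hB.step hC hBC l (off hB hC i hi l hl)).1 j hj,
      fun l hl => (hC.step hB hBC.symm l (off hC hB j hj l hl)).1 i hi⟩
  · exact Or.inr (Or.inr (Or.inl ⟨i, fun l => (hC.step hB hBC.symm l (hj l)).1 i hi⟩))
  · exact Or.inr (Or.inl ⟨j, fun l => (hB.step hC hBC l (hi l)).1 j hj⟩)
  · exact Or.inr (Or.inr (Or.inr fun l => (hB.step hC hBC l (hi l)).2 hj))

/-- the sup norm -/
def nm (a : ℤ × ℤ) : ℤ := max |a.1| |a.2|

theorem nm_adj {a b : ℤ × ℤ} (h : Adj a b) : nm a ≤ nm b + 1 ∧ nm b ≤ nm a + 1 := by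
  unfold Adj at h
  unfold nm
  have h1 := abs_nonneg (a.1 - b.1)
  have h2 := abs_nonneg (a.2 - b.2)
  have h3 : |a.1| ≤ |b.1| + |a.1 - b.1| := by
    have := abs_add_le b.1 (a.1 - b.1); rwa [add_sub_cancel] at this
  have h4 : |a.2| ≤ |b.2| + |a.2 - b.2| := by
    have := abs_add_le b.2 (a.2 - b.2); rwa [add_sub_cancel] at this
  have h5 : |b.1| ≤ |a.1| + |a.1 - b.1| := by
    have := abs_add_le a.1 (b.1 - a.1); rw [add_sub_cancel, abs_sub_comm] at this; exact this
  have h6 : |b.2| ≤ |a.2| + |a.2 - b.2| := by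
    have := abs_add_le a.2 (b.2 - a.2); rw [add_sub_cancel, abs_sub_comm] at this; exact this
  refine ⟨max_le ?_ ?_, max_le ?_ ?_⟩
  · have := le_max_left |b.1| |b.2|; omega
  · have := le_max_right |b.1| |b.2|; omega
  · have := le_max_left |a.1| |a.2|; omega
  · have := le_max_right |a.1| |a.2|; omega

/-- A path from norm at least `N` to norm at most `N` has a vertex of norm `N`. -/
theorem crossing {r : ℤ × ℤ → ℤ × ℤ → Prop} (hr : ∀ a b, r a b → Adj a b) {S : Set (ℤ × ℤ)}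
    {x b : ℤ × ℤ} (h : RIn r S x b) (hx : x ∈ S) {N : ℤ} (hxN : N ≤ nm x) (hbN : nm b ≤ N) :
    ∃ v ∈ S, nm v = N := by
  have key : (∃ v ∈ S, nm v = N) ∨ N < nm b := by
    induction h with
    | refl =>
      rcases hxN.eq_or_lt with h | h
      · exact Or.inl ⟨x, hx, h.symm⟩
      · exact Or.inr h
    | @tail c d _ hcd ih =>
      have h1 := nm_adj (hr c d hcd.1)
      rcases lt_or_ge (nm c) N with hc | hc
      · rcases ih hc.le with h | h
        · exact Or.inl h
        · exact absurd h (not_lt.2 hc.le)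
      · by_cases hcN : nm c = N
        · exact Or.inl ⟨c, hcd.2.1, hcN⟩
        · by_cases hdN : nm d = N
          · exact Or.inl ⟨d, hcd.2.2, hdN⟩
          · right; omega
  rcases key with h | h
  · exact h
  · exact absurd h (not_lt.2 hbN)

theorem finite_nm_le (N : ℤ) : {z : ℤ × ℤ | nm z ≤ N}.Finite := by
  refine ((Set.finite_Icc (-N) N).prod (Set.finite_Icc (-N) N)).subset ?_
  intro z hz
  simp only [mem_ofPred_eq, nm, max_le_iff] at hz
  exact ⟨abs_le.1 hz.1, abs_le.1 hz.2⟩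

theorem cluster_refl (ε : ℝ) (U : Config) (a : ℤ × ℤ) : a ∈ cluster ε U a :=
  ⟨ReflTransGen.refl, ReflTransGen.refl⟩

theorem cluster_eq {ε : ℝ} {U : Config} {a b : ℤ × ℤ} (h : b ∈ cluster ε U a) :
    cluster ε U b = cluster ε U a := by
  ext c
  exact ⟨fun hc => ⟨h.1.trans hc.1, hc.2.trans h.2⟩, fun hc => ⟨h.2.trans hc.1, hc.2.trans h.1⟩⟩

theorem cluster_disjoint {ε : ℝ} {U : Config} {a b : ℤ × ℤ} (h : cluster ε U a ≠ cluster ε U b) :
    Disjoint (cluster ε U a) (cluster ε U b) := by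
  rw [Set.disjoint_left]
  intro c hca hcb
  exact h ((cluster_eq hca).symm.trans (cluster_eq hcb))

theorem adj_symm {x y : ℤ × ℤ} (h : Adj x y) : Adj y x := by
  unfold Adj at *
  rw [abs_sub_comm y.1, abs_sub_comm y.2]
  exact h

/-- If `U` is strongly connected on `B`, is joined in both directions to all the vertices next to
`B`, and agrees off `B` with `U₀`, then the clusters of `U₀` which meet `B` are strongly connected
to `B` for `U`. -/
theorem link_of_agree {ε : ℝ} {U U₀ : Config} {B : Set (ℤ × ℤ)} (hagree : ∀ z, z ∉ B → U z = U₀ z)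
    (hconn : ∀ b ∈ B, ∀ c ∈ B, RIn (Open ε U) B b c)
    (hbd : ∀ z, z ∉ B → ∀ b ∈ B, Adj z b → Open ε U z b ∧ Open ε U b z)
    {a : ℤ × ℤ} (ha : a ∈ B) {x : ℤ × ℤ} (hx : x ∈ cluster ε U₀ a) {b : ℤ × ℤ} (hb : b ∈ B) :
    RIn (Open ε U) (cluster ε U₀ a \ B ∪ B) x b ∧ RIn (Open ε U) (cluster ε U₀ a \ B ∪ B) b x := by
  have hoff : ∀ x y, x ∉ B → y ∉ B → (Open ε U x y ↔ Open ε U₀ x y) := by
    intro x y hx hy
    unfold Open
    rw [hagree x hx, hagree y hy]
  set A := cluster ε U₀ a with hA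
  have h1 : ∀ x, Reach ε U₀ x a → x ∈ A → ∃ c ∈ B, RIn (Open ε U) (A \ B ∪ B) x c := by
    intro x hxa
    induction hxa using ReflTransGen.head_induction_on with
    | refl => exact fun _ => ⟨a, ha, ReflTransGen.refl⟩
    | @head x c hxc hca ih =>
      intro hxA
      have hcA : c ∈ A := ⟨hxA.1.trans (ReflTransGen.single hxc), hca⟩
      by_cases hxB : x ∈ B
      · exact ⟨x, hxB, ReflTransGen.refl⟩
      · by_cases hcB : c ∈ B
        · exact ⟨c, hcB, ReflTransGen.single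
            ⟨(hbd x hxB c hcB hxc.1).1, Or.inl ⟨hxA, hxB⟩, Or.inr hcB⟩⟩
        · obtain ⟨d, hd, hcd⟩ := ih hcA
          exact ⟨d, hd, ReflTransGen.head
            ⟨(hoff x c hxB hcB).2 hxc, Or.inl ⟨hxA, hxB⟩, Or.inl ⟨hcA, hcB⟩⟩ hcd⟩
  have h2 : ∀ x, Reach ε U₀ a x → x ∈ A → ∃ c ∈ B, RIn (Open ε U) (A \ B ∪ B) c x := by
    intro x hax
    induction hax with
    | refl => exact fun _ => ⟨a, ha, ReflTransGen.refl⟩
    | @tail c x hac hcx ih =>
      intro hxA
      have hcA : c ∈ A := ⟨hac, (ReflTransGen.single hcx).trans hxA.2⟩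
      by_cases hxB : x ∈ B
      · exact ⟨x, hxB, ReflTransGen.refl⟩
      · by_cases hcB : c ∈ B
        · exact ⟨c, hcB, ReflTransGen.single
            ⟨(hbd x hxB c hcB (adj_symm hcx.1)).2, Or.inr hcB, Or.inl ⟨hxA, hxB⟩⟩⟩
        · obtain ⟨d, hd, hcd⟩ := ih hcA
          exact ⟨d, hd, ReflTransGen.tail hcd
            ⟨(hoff c x hcB hxB).2 hcx, Or.inl ⟨hcA, hcB⟩, Or.inl ⟨hxA, hxB⟩⟩⟩
  obtain ⟨c, hc, hxc⟩ := h1 x hx.2 hx
  obtain ⟨d, hd, hdx⟩ := h2 x hx.1 hx
  exact ⟨hxc.trans ((hconn c hc b hb).mono subset_union_right),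
    ((hconn b hb d hd).mono subset_union_right).trans hdx⟩

/-- If `U` is strongly connected on `B`, is joined in both directions to all the vertices next to
`B`, and agrees off `B` with a configuration of which three different clusters meet `B`, then `B` is
a trifurcation of `U`. -/
theorem tri_of_agree {ε : ℝ} {U U₀ : Config} {B : Set (ℤ × ℤ)} (hagree : ∀ z, z ∉ B → U z = U₀ z)
    (hconn : ∀ b ∈ B, ∀ c ∈ B, RIn (Open ε U) B b c)
    (hbd : ∀ z, z ∉ B → ∀ b ∈ B, Adj z b → Open ε U z b ∧ Open ε U b z)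
    (a : Fin 3 → ℤ × ℤ) (ha : ∀ l, a l ∈ B)
    (hne : ∀ l m, l ≠ m → cluster ε U₀ (a l) ≠ cluster ε U₀ (a m)) :
    Tri (Open ε U) B (fun l => cluster ε U₀ (a l) \ B) := by
  have hoff : ∀ x y, x ∉ B → y ∉ B → (Open ε U x y ↔ Open ε U₀ x y) := by
    intro x y hx hy
    unfold Open
    rw [hagree x hx, hagree y hy]
  refine ⟨⟨a 0, ha 0⟩, ?_, ?_, ?_, ?_, hconn⟩
  · intro l m hlm
    exact (cluster_disjoint (hne l m hlm)).mono sdiff_subset sdiff_subset
  · intro l x hx
    exact hx.2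
  · intro l x hx y hy h1 h2
    have conv : ∀ u v, RIn (Open ε U) Bᶜ u v → Reach ε U₀ u v := fun u v h =>
      rtg_mono (fun c d hcd => (hoff c d hcd.2.1 hcd.2.2).1 hcd.1) h
    exact ⟨⟨hx.1.1.trans (conv _ _ h1), (conv _ _ h2).trans hx.1.2⟩, hy⟩
  · intro l x hx b hb
    exact link_of_agree hagree hconn hbd (ha l) hx.1 hb

/-- A cluster which avoids `B` is contained in a cluster of each configuration which agrees with `U`
off `B`. -/
theorem cluster_sub {ε : ℝ} {U U₀ : Config} {B : Set (ℤ × ℤ)} (hagree : ∀ z, z ∉ B → U z = U₀ z)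
    {c : ℤ × ℤ} (hc : Disjoint (cluster ε U c) B) : cluster ε U c ⊆ cluster ε U₀ c := by
  have hoff : ∀ x y, x ∉ B → y ∉ B → Open ε U x y → Open ε U₀ x y := by
    intro x y hx hy
    unfold Open
    rw [hagree x hx, hagree y hy]
    exact id
  have h1 : ∀ x, Reach ε U c x → x ∈ cluster ε U c → Reach ε U₀ c x := by
    intro x h
    induction h with
    | refl => exact fun _ => ReflTransGen.refl
    | @tail y x hcy hyx ih =>
      intro hx
      have hy : y ∈ cluster ε U c := ⟨hcy, ReflTransGen.head hyx hx.2⟩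
      exact (ih hy).tail (hoff y x (Set.disjoint_left.1 hc hy) (Set.disjoint_left.1 hc hx) hyx)
  have h2 : ∀ x, Reach ε U x c → x ∈ cluster ε U c → Reach ε U₀ x c := by
    intro x h
    induction h using ReflTransGen.head_induction_on with
    | refl => exact fun _ => ReflTransGen.refl
    | @head x y hxy hyc ih =>
      intro hx
      have hy : y ∈ cluster ε U c := ⟨hx.1.tail hxy, hyc⟩
      exact (ih hy).head (hoff x y (Set.disjoint_left.1 hc hx) (Set.disjoint_left.1 hc hy) hxy)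
  exact fun x hx => ⟨h1 x hx.1 hx, h2 x hx.2 hx⟩

end Pool.Agent.J4.H90.Lightning
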