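import Pool.Agent.J4.H90.Lightning.Graph

set_option autoImplicit false

/-!
# Modification of a configuration in a box
-/

open Relation Set

namespace Pool.Agent.J4.H90.Lightning

/-- the box `[-n,n]²` -/
noncomputable def box (n : ℕ) : Finset (ℤ × ℤ) := Finset.Icc (-(n : ℤ)) n ×ˢ Finset.Icc (-(n : ℤ)) n

theorem mem_box {n : ℕ} {z : ℤ × ℤ} : z ∈ box n ↔ |z.1| ≤ n ∧ |z.2| ≤ n := by
  unfold box
  rw [Finset.mem_product, Finset.mem_Icc, Finset.mem_Icc, abs_le, abs_le]

theorem mem_box_nm {n : ℕ} {z : ℤ × ℤ} : z ∈ box n ↔ nm z ≤ n := by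
  rw [mem_box, nm, max_le_iff]

noncomputable def fade (L : ℕ) (k : ℤ) : ℝ := max 0 (1 - (k : ℝ) / L)

theorem fade_zero {L : ℕ} (hL : 0 < L) {k : ℤ} (h : (L : ℤ) ≤ k) : fade L k = 0 := by
  unfold fade
  apply max_eq_left
  have hL' : (0 : ℝ) < L := by exact_mod_cast hL
  have h' : (L : ℝ) ≤ k := by exact_mod_cast h
  rw [sub_nonpos, one_le_div hL']
  exact h'

theorem fade_at_zero (L : ℕ) : fade L 0 = 1 := by
  unfold fade
  simp

theorem fade_nonneg (L : ℕ) (k : ℤ) : 0 ≤ fade L k := le_max_left _ _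

theorem fade_le_one {L : ℕ} {k : ℤ} (h : 0 ≤ k) : fade L k ≤ 1 := by
  unfold fade
  have : (0 : ℝ) ≤ (k : ℝ) / L := div_nonneg (by exact_mod_cast h) (by positivity)
  exact max_le (by norm_num) (by linarith)

theorem fade_diff {L : ℕ} (hL : 0 < L) (k : ℤ) : |fade L k - fade L (k + 1)| ≤ 1 / L := by
  unfold fade
  have hL' : (0 : ℝ) < L := by exact_mod_cast hL
  have h1 := abs_max_sub_max_le_abs (1 - (k : ℝ) / L) (1 - ((k + 1 : ℤ) : ℝ) / L) 0
  rw [max_comm 0, max_comm 0]
  refine h1.trans (le_of_eq ?_)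
  push_cast
  rw [show (1 - (k : ℝ) / L) - (1 - (k + 1) / L) = 1 / L by ring]
  exact abs_of_pos (by positivity)

/-- the potential on a line from one side of the box to the other -/
noncomputable def lin (n L : ℕ) (u v : ℝ) (y : ℤ) : ℝ :=
  1 / 2 + fade L (n - |y|) * ((if 0 ≤ y then u else v) - 1 / 2)

theorem lin_half {n L : ℕ} (hL : 0 < L) (u v : ℝ) {y : ℤ} (h : (L : ℤ) ≤ n - |y|) :
    lin n L u v y = 1 / 2 := by
  unfold lin
  rw [fade_zero hL h]
  ring

theorem lin_top {n L : ℕ} (u v : ℝ) : lin n L u v n = u := by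
  unfold lin
  rw [Nat.abs_cast, sub_self, fade_at_zero, if_pos (by positivity)]
  ring

theorem lin_bot {n L : ℕ} (hn : 0 < n) (u v : ℝ) : lin n L u v (-n) = v := by
  unfold lin
  rw [abs_neg, Nat.abs_cast, sub_self, fade_at_zero, if_neg (by omega)]
  ring

theorem lin_mem {n L : ℕ} {u v : ℝ} (hu : 0 ≤ u ∧ u ≤ 1) (hv : 0 ≤ v ∧ v ≤ 1) {y : ℤ}
    (hy : |y| ≤ n) : 0 ≤ lin n L u v y ∧ lin n L u v y ≤ 1 := by
  unfold lin
  have h1 := fade_nonneg L (n - |y|)
  have h2 : fade L (n - |y|) ≤ 1 := fade_le_one (by omega)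
  have h3 : 0 ≤ (if 0 ≤ y then u else v) ∧ (if 0 ≤ y then u else v) ≤ 1 := by
    split_ifs
    exacts [hu, hv]
  constructor <;> nlinarith

/-- one step towards zero -/
def tz (y : ℤ) : ℤ := if 0 < y then y - 1 else y + 1

theorem abs_tz {y : ℤ} (hy : y ≠ 0) : |tz y| = |y| - 1 := by
  unfold tz
  split_ifs with h
  · rw [abs_of_pos h, abs_of_nonneg (show 0 ≤ y - 1 by omega)]
  · rw [abs_of_neg (show y < 0 by omega), abs_of_nonpos (show y + 1 ≤ 0 by omega)]; ring

theorem abs_sub_tz {y : ℤ} : |y - tz y| = 1 := by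
  unfold tz
  split_ifs with h
  · rw [show y - (y - 1) = 1 by ring]; rfl
  · rw [show y - (y + 1) = -1 by ring]; rfl

theorem lin_step {n L : ℕ} (hL : 0 < L) (hn : L + 1 ≤ n) {u v : ℝ} (hu : 0 ≤ u ∧ u ≤ 1)
    (hv : 0 ≤ v ∧ v ≤ 1) {y : ℤ} (hy : y ≠ 0) :
    |lin n L u v y - lin n L u v (tz y)| ≤ 1 / (2 * L) := by
  have hL' : (0 : ℝ) < L := by exact_mod_cast hL
  have key : ∀ w : ℝ, (0 ≤ w ∧ w ≤ 1) →
      |(1 / 2 + fade L (n - |y|) * (w - 1 / 2)) - (1 / 2 + fade L (n - |tz y|) * (w - 1 / 2))| ≤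
        1 / (2 * L) := by
    intro w hw
    rw [abs_tz hy, show (n : ℤ) - (|y| - 1) = (n - |y|) + 1 by ring,
      show (1 / 2 + fade L (n - |y|) * (w - 1 / 2)) -
        (1 / 2 + fade L (n - |y| + 1) * (w - 1 / 2)) =
        (fade L (n - |y|) - fade L (n - |y| + 1)) * (w - 1 / 2) by ring, abs_mul]
    have h1 := fade_diff hL (n - |y|)
    have h2 : |w - 1 / 2| ≤ 1 / 2 := abs_le.2 ⟨by linarith, by linarith⟩
    calc _ ≤ 1 / (L : ℝ) * (1 / 2) := mul_le_mul h1 h2 (abs_nonneg _) (by positivity)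
      _ = 1 / (2 * L) := by rw [one_div_mul_one_div, mul_comm]
  by_cases h0 : 0 < y
  · have h1 : 0 ≤ tz y := by unfold tz; rw [if_pos h0]; omega
    have := key u hu
    unfold lin
    rw [if_pos h0.le, if_pos h1]
    exact this
  · by_cases h2 : y = -1
    · have h3 : tz y = 0 := by unfold tz; rw [if_neg h0, h2]; rfl
      rw [lin_half hL u v (y := y) (by rw [h2]; simp; omega), h3,
        lin_half hL u v (y := 0) (by simp; omega), sub_self, abs_zero]
      positivity
    · have h1 : ¬ 0 ≤ tz y := by unfold tz; rw [if_neg h0]; omega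
      have h4 : ¬ 0 ≤ y := by omega
      have := key v hv
      unfold lin
      rw [if_neg h4, if_neg h1]
      exact this

/-- the desired potentials in the box, as a function of the potentials outside the box -/
noncomputable def target (n L : ℕ) (U : Config) (z : ℤ × ℤ) : ℝ :=
  if |z.1| ≤ n - 2 * L then lin n L (U (z.1, n + 1)) (U (z.1, -(n + 1))) z.2
  else if |z.2| ≤ n - 2 * L then lin n L (U (n + 1, z.2)) (U (-(n + 1), z.2)) z.1
  else 1 / 2

theorem unit_mem (u : unitInterval) : 0 ≤ (u : ℝ) ∧ (u : ℝ) ≤ 1 := ⟨u.2.1, u.2.2⟩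

theorem target_mem {n L : ℕ} (U : Config) {z : ℤ × ℤ} (hz : z ∈ box n) :
    0 ≤ target n L U z ∧ target n L U z ≤ 1 := by
  rw [mem_box] at hz
  unfold target
  split_ifs
  · exact lin_mem (unit_mem _) (unit_mem _) hz.2
  · exact lin_mem (unit_mem _) (unit_mem _) hz.1
  · norm_num

theorem target_congr {n L : ℕ} {U V : Config} (h : ∀ z, z ∉ box n → U z = V z) (z : ℤ × ℤ) :
    target n L U z = target n L V z := by
  have h1 : ∀ x : ℤ, U (x, (n : ℤ) + 1) = V (x, (n : ℤ) + 1) := fun x => h _ fun hx => by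
    rw [mem_box] at hx
    have := hx.2
    rw [abs_of_nonneg (by omega)] at this
    omega
  have h2 : ∀ x : ℤ, U (x, -((n : ℤ) + 1)) = V (x, -((n : ℤ) + 1)) := fun x => h _ fun hx => by
    rw [mem_box] at hx
    have := hx.2
    rw [abs_neg, abs_of_nonneg (by omega)] at this
    omega
  have h3 : ∀ y : ℤ, U ((n : ℤ) + 1, y) = V ((n : ℤ) + 1, y) := fun x => h _ fun hx => by
    rw [mem_box] at hx
    have := hx.1
    rw [abs_of_nonneg (by omega)] at this
    omega
  have h4 : ∀ y : ℤ, U (-((n : ℤ) + 1), y) = V (-((n : ℤ) + 1), y) := fun x => h _ fun hx => by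
    rw [mem_box] at hx
    have := hx.1
    rw [abs_neg, abs_of_nonneg (by omega)] at this
    omega
  unfold target
  rw [h1, h2, h3, h4]

theorem exists_step {n L : ℕ} (hL : 0 < L) (hn : 4 * L ≤ n) (U : Config) {z : ℤ × ℤ}
    (hz : z ∈ box n) (h0 : z ≠ 0) :
    ∃ z' ∈ box n, Adj z z' ∧ |z'.1| + |z'.2| < |z.1| + |z.2| ∧
      |target n L U z - target n L U z'| ≤ 1 / (2 * L) := by
  obtain ⟨x, y⟩ := z
  rw [mem_box] at hz
  dsimp only at hz
  have hL' : (0 : ℝ) < L := by exact_mod_cast hL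
  have hpos : (0 : ℝ) ≤ 1 / (2 * L) := by positivity
  have half : ∀ a b : ℝ, a = 1 / 2 → b = 1 / 2 → |a - b| ≤ 1 / (2 * L) := by
    intro a b ha hb
    rw [ha, hb, sub_self, abs_zero]
    exact hpos
  -- the two moves
  have moveY : y ≠ 0 → ((x, tz y) : ℤ × ℤ) ∈ box n ∧ Adj (x, y) (x, tz y) ∧
      |x| + |tz y| < |x| + |y| := by
    intro hy
    refine ⟨?_, ?_, ?_⟩
    · rw [mem_box]; dsimp only; rw [abs_tz hy]; omega
    · unfold Adj; dsimp only; rw [sub_self, abs_zero, zero_add, abs_sub_tz]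
    · rw [abs_tz hy]; omega
  have moveX : x ≠ 0 → ((tz x, y) : ℤ × ℤ) ∈ box n ∧ Adj (x, y) (tz x, y) ∧
      |tz x| + |y| < |x| + |y| := by
    intro hx
    refine ⟨?_, ?_, ?_⟩
    · rw [mem_box]; dsimp only; rw [abs_tz hx]; omega
    · unfold Adj; dsimp only; rw [sub_self, abs_zero, add_zero, abs_sub_tz]
    · rw [abs_tz hx]; omega
  by_cases hA : |x| ≤ (n : ℤ) - 2 * L
  · by_cases hy : y = 0
    · -- move horizontally along the axis
      have hx : x ≠ 0 := by rintro rfl; exact h0 (by rw [hy]; rfl)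
      obtain ⟨m1, m2, m3⟩ := moveX hx
      refine ⟨(tz x, y), m1, m2, m3, half _ _ ?_ ?_⟩
      · unfold target; dsimp only; rw [if_pos hA]
        exact lin_half hL _ _ (by rw [hy, abs_zero]; omega)
      · unfold target; dsimp only; rw [if_pos (by rw [abs_tz hx]; omega)]
        exact lin_half hL _ _ (by rw [hy, abs_zero]; omega)
    · obtain ⟨m1, m2, m3⟩ := moveY hy
      refine ⟨(x, tz y), m1, m2, m3, ?_⟩
      unfold target; dsimp only; rw [if_pos hA, if_pos hA]
      exact lin_step hL (by omega) (unit_mem _) (unit_mem _) hy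
  · have hx : x ≠ 0 := by rintro rfl; apply hA; rw [abs_zero]; omega
    by_cases hB : |y| ≤ (n : ℤ) - 2 * L
    · obtain ⟨m1, m2, m3⟩ := moveX hx
      refine ⟨(tz x, y), m1, m2, m3, ?_⟩
      by_cases hC : |tz x| ≤ (n : ℤ) - 2 * L
      · apply half
        · unfold target; dsimp only; rw [if_neg hA, if_pos hB]
          rw [abs_tz hx] at hC
          exact lin_half hL _ _ (by omega)
        · unfold target; dsimp only; rw [if_pos hC]
          exact lin_half hL _ _ (by omega)
      · unfold target; dsimp only; rw [if_neg hA, if_pos hB, if_neg hC, if_pos hB]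
        exact lin_step hL (by omega) (unit_mem _) (unit_mem _) hx
    · have hy : y ≠ 0 := by rintro rfl; apply hB; rw [abs_zero]; omega
      have hz1 : target n L U (x, y) = 1 / 2 := by
        unfold target; dsimp only; rw [if_neg hA, if_neg hB]
      by_cases hD : |y| = (n : ℤ) - 2 * L + 1
      · obtain ⟨m1, m2, m3⟩ := moveX hx
        refine ⟨(tz x, y), m1, m2, m3, half _ _ hz1 ?_⟩
        unfold target; dsimp only
        by_cases hC : |tz x| ≤ (n : ℤ) - 2 * L
        · rw [if_pos hC]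
          exact lin_half hL _ _ (by omega)
        · rw [if_neg hC, if_neg hB]
      · obtain ⟨m1, m2, m3⟩ := moveY hy
        refine ⟨(x, tz y), m1, m2, m3, half _ _ hz1 ?_⟩
        unfold target; dsimp only
        rw [if_neg hA, if_neg (by rw [abs_tz hy]; omega)]

/-- vertices next to the corners of the box -/
noncomputable def cornerSet (n L : ℕ) : Finset (ℤ × ℤ) :=
  (box (n + 1)).filter fun z => nm z = n + 1 ∧ (n : ℤ) - 2 * L < |z.1| ∧ (n : ℤ) - 2 * L < |z.2|

theorem adj_comm {a b : ℤ × ℤ} (h : Adj a b) : Adj b a := by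
  unfold Adj at *
  rw [abs_sub_comm b.1, abs_sub_comm b.2]
  exact h

/-- **The modified box.** -/
theorem good_box {ε δ : ℝ} {n L : ℕ} (hL : 0 < L) (hn : 4 * L ≤ n) (hLε : 1 / (L : ℝ) ≤ ε)
    (hδ : 4 * δ ≤ ε) (hδ0 : 0 < δ) (U : Config) (hin : ∀ z ∈ box n, |(U z : ℝ) - target n L U z| < δ)
    (hcor : ∀ z ∈ cornerSet n L, |(U z : ℝ) - 1 / 2| < δ) :
    (∀ b ∈ (box n : Set (ℤ × ℤ)), ∀ c ∈ (box n : Set (ℤ × ℤ)),
      RIn (Open ε U) (box n : Set (ℤ × ℤ)) b c) ∧
    ∀ z, z ∉ (box n : Set (ℤ × ℤ)) → ∀ b ∈ (box n : Set (ℤ × ℤ)), Adj z b →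
      Open ε U z b ∧ Open ε U b z := by
  have hL' : (0 : ℝ) < L := by exact_mod_cast hL
  have hε : 0 < ε := lt_of_lt_of_le (by positivity) hLε
  have hhalf : 1 / (2 * (L : ℝ)) ≤ ε / 2 := by
    rw [show 1 / (2 * (L : ℝ)) = (1 / L) / 2 by rw [div_div, mul_comm]]
    linarith
  constructor
  · -- everything is strongly connected to the origin
    have key : ∀ k : ℕ, ∀ z ∈ box n, (|z.1| + |z.2|).toNat ≤ k →
        RIn (Open ε U) (box n : Set (ℤ × ℤ)) z 0 ∧ RIn (Open ε U) (box n : Set (ℤ × ℤ)) 0 z := by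
      intro k
      induction k with
      | zero =>
        intro z hz hk
        have : z = 0 := by
          have h1 := abs_nonneg z.1
          have h2 := abs_nonneg z.2
          have h3 : |z.1| = 0 := by omega
          have h4 : |z.2| = 0 := by omega
          exact Prod.ext (abs_eq_zero.1 h3) (abs_eq_zero.1 h4)
        rw [this]
        exact ⟨ReflTransGen.refl, ReflTransGen.refl⟩
      | succ k ih =>
        intro z hz hk
        by_cases h0 : z = 0
        · rw [h0]
          exact ⟨ReflTransGen.refl, ReflTransGen.refl⟩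
        · obtain ⟨z', hz', hadj, hlt, hd⟩ := exists_step hL hn U hz h0
          have h1 := abs_nonneg z'.1
          have h2 := abs_nonneg z'.2
          obtain ⟨i1, i2⟩ := ih z' hz' (by omega)
          have e1 := abs_lt.1 (hin z hz)
          have e2 := abs_lt.1 (hin z' hz')
          have e3 := abs_le.1 hd
          have o1 : Open ε U z z' := ⟨hadj, by linarith [e1.1, e1.2, e2.1, e2.2, e3.1, e3.2]⟩
          have o2 : Open ε U z' z :=
            ⟨adj_comm hadj, by linarith [e1.1, e1.2, e2.1, e2.2, e3.1, e3.2]⟩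
          exact ⟨ReflTransGen.head ⟨o1, hz, hz'⟩ i1, ReflTransGen.tail i2 ⟨o2, hz', hz⟩⟩
    intro b hb c hc
    exact (key _ b hb le_rfl).1.trans (key _ c hc le_rfl).2
  · intro z hz b hb hadj
    have hz' : z ∉ box n := hz
    have hb' : b ∈ box n := hb
    -- it is enough to bound the difference
    suffices h : |(U z : ℝ) - U b| < ε by
      have := abs_lt.1 h
      exact ⟨⟨hadj, by linarith [this.1]⟩, ⟨adj_comm hadj, by linarith [this.2]⟩⟩
    have hin' := abs_lt.1 (hin b hb')
    obtain ⟨x, y⟩ := b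
    obtain ⟨x', y'⟩ := z
    rw [mem_box] at hz' hb'
    unfold Adj at hadj
    dsimp only at hz' hb' hadj
    -- a corner vertex
    have corner : ∀ w : ℤ × ℤ, w ∈ cornerSet n L → target n L U (x, y) = 1 / 2 → w = (x', y') →
        |(U (x', y') : ℝ) - U (x, y)| < ε := by
      intro w hw ht hwz
      have h1 := abs_lt.1 (hcor w hw)
      rw [hwz] at h1
      rw [ht] at hin'
      rw [abs_lt]
      constructor <;> linarith [h1.1, h1.2, hin'.1, hin'.2]
    have side : target n L U (x, y) = U (x', y') → |(U (x', y') : ℝ) - U (x, y)| < ε := by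
      intro ht
      rw [ht] at hin'
      rw [abs_lt]
      constructor <;> linarith [hin'.1, hin'.2]
    have hcases : (x' = x ∧ |y' - y| = 1) ∨ (y' = y ∧ |x' - x| = 1) := by
      have h1 := abs_nonneg (x' - x)
      have h2 := abs_nonneg (y' - y)
      rcases (show |x' - x| = 0 ∨ |y' - y| = 0 by omega) with h | h
      · left
        exact ⟨by have := abs_eq_zero.1 h; omega, by omega⟩
      · right
        exact ⟨by have := abs_eq_zero.1 h; omega, by omega⟩
    rcases hcases with ⟨rfl, h1⟩ | ⟨rfl, h1⟩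
    · -- vertical
      have h2 : (y = n ∧ y' = n + 1) ∨ (y = -n ∧ y' = -(n + 1)) := by
        have hy' : ¬ |y'| ≤ n := fun h => hz' ⟨hb'.1, h⟩
        have hy := abs_le.1 hb'.2
        rw [abs_le] at hy'
        rcases abs_eq (by norm_num : (0 : ℤ) ≤ 1) |>.1 h1 with h | h <;> omega
      by_cases hA : |x'| ≤ (n : ℤ) - 2 * L
      · apply side
        unfold target
        dsimp only
        rw [if_pos hA]
        rcases h2 with ⟨rfl, rfl⟩ | ⟨rfl, rfl⟩
        · exact lin_top _ _
        · exact lin_bot (by omega) _ _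
      · have hyn : |y| = n := by
          rcases h2 with ⟨h, -⟩ | ⟨h, -⟩ <;> rw [h]
          · exact Nat.abs_cast n
          · rw [abs_neg]; exact Nat.abs_cast n
        have hyn' : |y'| = n + 1 := by
          rcases h2 with ⟨-, h⟩ | ⟨-, h⟩ <;> rw [h]
          · exact abs_of_nonneg (by omega)
          · rw [abs_neg]; exact abs_of_nonneg (by omega)
        refine corner (x', y') ?_ ?_ rfl
        · rw [cornerSet, Finset.mem_filter, mem_box]
          refine ⟨⟨?_, ?_⟩, ?_, ?_, ?_⟩
          · dsimp only; push_cast; omega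
          · dsimp only; push_cast; omega
          · unfold nm; dsimp only; rw [hyn']; exact max_eq_right (by omega)
          · dsimp only; omega
          · dsimp only; omega
        · unfold target; dsimp only
          rw [if_neg hA, if_neg (by omega)]
    · -- horizontal
      have h2 : (x = n ∧ x' = n + 1) ∨ (x = -n ∧ x' = -(n + 1)) := by
        have hx' : ¬ |x'| ≤ n := fun h => hz' ⟨h, hb'.2⟩
        have hx := abs_le.1 hb'.1
        rw [abs_le] at hx'
        rcases abs_eq (by norm_num : (0 : ℤ) ≤ 1) |>.1 h1 with h | h <;> omega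
      have hxn : |x| = n := by
        rcases h2 with ⟨h, -⟩ | ⟨h, -⟩ <;> rw [h]
        · exact Nat.abs_cast n
        · rw [abs_neg]; exact Nat.abs_cast n
      have hxn' : |x'| = n + 1 := by
        rcases h2 with ⟨-, h⟩ | ⟨-, h⟩ <;> rw [h]
        · exact abs_of_nonneg (by omega)
        · rw [abs_neg]; exact abs_of_nonneg (by omega)
      have hA : ¬ |x| ≤ (n : ℤ) - 2 * L := by omega
      by_cases hB : |y'| ≤ (n : ℤ) - 2 * L
      · apply side
        unfold target
        dsimp only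
        rw [if_neg hA, if_pos hB]
        rcases h2 with ⟨rfl, rfl⟩ | ⟨rfl, rfl⟩
        · exact lin_top _ _
        · exact lin_bot (by omega) _ _
      · refine corner (x', y') ?_ ?_ rfl
        · rw [cornerSet, Finset.mem_filter, mem_box]
          refine ⟨⟨?_, ?_⟩, ?_, ?_, ?_⟩
          · dsimp only; push_cast; omega
          · dsimp only; push_cast; omega
          · unfold nm; dsimp only; rw [hxn']; exact max_eq_left (by omega)
          · dsimp only; omega
          · dsimp only; omega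
        · unfold target; dsimp only
          rw [if_neg hA, if_neg hB]

end Pool.Agent.J4.H90.Lightning
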