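import Pool.Agent.J4.H90.Lightning.Count2

set_option autoImplicit false

/-!
# The probabilistic part
-/

open MeasureTheory Relation Set Filter
open scoped ENNReal

namespace Pool.Agent.J4.H90.Lightning

/-! ### Measurability -/

theorem meas_coord (a : ℤ × ℤ) : Measurable (fun U : Config => (U a : ℝ)) :=
  measurable_subtype_coe.comp (measurable_pi_apply a)

theorem meas_open (ε : ℝ) (a b : ℤ × ℤ) : MeasurableSet {U : Config | Open ε U a b} := by
  unfold Open
  by_cases h : Adj a b
  · simp only [h, true_and]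
    exact measurableSet_lt (meas_coord b) ((meas_coord a).add_const ε)
  · simp only [h, false_and]
    exact MeasurableSet.empty

/-- walks of length `n` -/
def wk (ε : ℝ) (U : Config) : ℕ → ℤ × ℤ → ℤ × ℤ → Prop
  | 0, a, b => a = b
  | n + 1, a, b => ∃ c, Open ε U a c ∧ wk ε U n c b

theorem reach_iff (ε : ℝ) (U : Config) (a b : ℤ × ℤ) : Reach ε U a b ↔ ∃ n, wk ε U n a b := by
  constructor
  · intro h
    induction h using ReflTransGen.head_induction_on with
    | refl => exact ⟨0, rfl⟩
    | head h _ ih =>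
      obtain ⟨n, hn⟩ := ih
      exact ⟨n + 1, _, h, hn⟩
  · rintro ⟨n, hn⟩
    induction n generalizing a with
    | zero => cases hn; exact ReflTransGen.refl
    | succ n ih =>
      obtain ⟨c, h, hc⟩ := hn
      exact ReflTransGen.head h (ih c hc)

theorem meas_wk (ε : ℝ) (n : ℕ) : ∀ a b : ℤ × ℤ, MeasurableSet {U : Config | wk ε U n a b} := by
  induction n with
  | zero =>
    intro a b
    by_cases h : a = b
    · simp [wk, h]
    · simp [wk, h]
  | succ n ih =>
    intro a b
    have : {U : Config | wk ε U (n + 1) a b} =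
        ⋃ c, ({U : Config | Open ε U a c} ∩ {U | wk ε U n c b}) := by
      ext U; simp [wk]
    rw [this]
    exact MeasurableSet.iUnion fun c => (meas_open ε a c).inter (ih c b)

theorem meas_reach (ε : ℝ) (a b : ℤ × ℤ) : MeasurableSet {U : Config | Reach ε U a b} := by
  have : {U : Config | Reach ε U a b} = ⋃ n, {U | wk ε U n a b} := by
    ext U; simp [reach_iff]
  rw [this]
  exact MeasurableSet.iUnion fun n => meas_wk ε n a b

theorem meas_cluster (ε : ℝ) (a b : ℤ × ℤ) : MeasurableSet {U : Config | b ∈ cluster ε U a} :=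
  (meas_reach ε a b).inter (meas_reach ε b a)

theorem infinite_iff (S : Set (ℤ × ℤ)) : S.Infinite ↔ ∀ N : ℕ, ∃ b, b ∈ S ∧ (N : ℤ) < nm b := by
  constructor
  · intro h N
    by_contra hcon
    push Not at hcon
    exact h ((finite_nm_le N).subset hcon)
  · intro h hf
    obtain ⟨N, hN⟩ : ∃ N : ℕ, ∀ b ∈ S, nm b ≤ N := by
      obtain ⟨C, hC⟩ := (hf.image nm).bddAbove
      refine ⟨C.toNat, fun b hb => ?_⟩
      have := hC (mem_image_of_mem nm hb)
      omega
    obtain ⟨b, hb, hbN⟩ := h N
    exact absurd (hN b hb) (not_le.2 hbN)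

theorem meas_inf (ε : ℝ) (a : ℤ × ℤ) : MeasurableSet {U : Config | (cluster ε U a).Infinite} := by
  have : {U : Config | (cluster ε U a).Infinite} =
      ⋂ N : ℕ, ⋃ b : ℤ × ℤ, ({U : Config | b ∈ cluster ε U a} ∩ {_U | (N : ℤ) < nm b}) := by
    ext U
    simp [infinite_iff]
  rw [this]
  exact MeasurableSet.iInter fun N => MeasurableSet.iUnion fun b =>
    (meas_cluster ε a b).inter (MeasurableSet.const _)

/-- three different infinite clusters meet the box -/
def evH (ε : ℝ) (n : ℕ) : Set Config :=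
  {U | ∃ a : Fin 3 → ℤ × ℤ, (∀ l, a l ∈ box n) ∧ (∀ l, (cluster ε U (a l)).Infinite) ∧
    ∀ l m, l ≠ m → a m ∉ cluster ε U (a l)}

theorem meas_evH (ε : ℝ) (n : ℕ) : MeasurableSet (evH ε n) := by
  have : evH ε n = ⋃ a : Fin 3 → ℤ × ℤ, ((⋂ l, {_U | a l ∈ box n}) ∩
      ((⋂ l, {U : Config | (cluster ε U (a l)).Infinite}) ∩
      ⋂ l, ⋂ m, {U : Config | l ≠ m → a m ∉ cluster ε U (a l)})) := by
    ext U
    simp [evH]
  rw [this]
  refine MeasurableSet.iUnion fun a => (MeasurableSet.iInter fun l => MeasurableSet.const _).inter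
    ((MeasurableSet.iInter fun l => meas_inf ε _).inter
      (MeasurableSet.iInter fun l => MeasurableSet.iInter fun m => ?_))
  by_cases h : l = m
  · simp [h]
  · simp only [ne_eq, h, not_false_eq_true, true_imp_iff]
    exact (meas_cluster ε (a l) (a m)).compl

theorem evH_mono (ε : ℝ) {m n : ℕ} (h : m ≤ n) : evH ε m ⊆ evH ε n := by
  rintro U ⟨a, h1, h2, h3⟩
  refine ⟨a, fun l => ?_, h2, h3⟩
  have := mem_box_nm.1 (h1 l)
  exact mem_box_nm.2 (this.trans (by exact_mod_cast h))

/-! ### Resampling -/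

/-- the second configuration on `B`, the first one elsewhere -/
def mix (B : Finset (ℤ × ℤ)) (p : Config × Config) : Config := fun z => if z ∈ B then p.2 z else p.1 z

theorem measurable_mix (B : Finset (ℤ × ℤ)) : Measurable (mix B) := by
  refine measurable_pi_iff.2 fun z => ?_
  unfold mix
  by_cases h : z ∈ B
  · simp only [h, if_true]
    exact (measurable_pi_apply z).comp measurable_snd
  · simp only [h, if_false]
    exact (measurable_pi_apply z).comp measurable_fst

theorem map_mix (B : Finset (ℤ × ℤ)) : (law.prod law).map (mix B) = law := by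
  classical
  unfold law
  refine Measure.eq_infinitePi _ fun s t ht => ?_
  rw [Measure.map_apply (measurable_mix B) (MeasurableSet.pi s.countable_toSet fun i _ => ht i)]
  have : mix B ⁻¹' (Set.pi s t) =
      (Set.pi (s.filter fun z => z ∉ B : Finset (ℤ × ℤ)) t) ×ˢ
      (Set.pi (s.filter fun z => z ∈ B : Finset (ℤ × ℤ)) t) := by
    ext p
    simp only [mem_preimage, Set.mem_pi, Finset.mem_coe, mem_prod, Finset.mem_filter, mix]
    constructor
    · intro h
      refine ⟨fun z hz => ?_, fun z hz => ?_⟩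
      · have := h z hz.1
        rwa [if_neg hz.2] at this
      · have := h z hz.1
        rwa [if_pos hz.2] at this
    · rintro ⟨h1, h2⟩ z hz
      split_ifs with h
      · exact h2 z ⟨hz, h⟩
      · exact h1 z ⟨hz, h⟩
  rw [this, Measure.prod_prod, Measure.infinitePi_pi _ fun i _ => ht i,
    Measure.infinitePi_pi _ fun i _ => ht i, mul_comm]
  exact Finset.prod_filter_mul_prod_filter_not s (fun z => z ∈ B) _

theorem vol_pos {c δ : ℝ} (h0 : 0 ≤ c) (h1 : c ≤ 1) (hδ : 0 < δ) :
    volume {u : unitInterval | |(u : ℝ) - c| < δ} ≠ 0 := by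
  set r : ℝ := min (δ / 2) (1 / 2) with hr
  have hr0 : 0 < r := lt_min (by linarith) (by norm_num)
  have hr1 : r ≤ δ / 2 := min_le_left _ _
  have hr2 : r ≤ 1 / 2 := min_le_right _ _
  have key : ∀ x y : unitInterval, (x : ℝ) < y → (∀ u : unitInterval, x ≤ u → u ≤ y →
      |(u : ℝ) - c| < δ) → volume {u : unitInterval | |(u : ℝ) - c| < δ} ≠ 0 := by
    intro x y hxy h hzero
    have h2 : volume (Icc x y) = 0 := measure_mono_null (fun u hu => h u hu.1 hu.2) hzero
    rw [unitInterval.volume_Icc, ENNReal.ofReal_eq_zero] at h2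
    linarith
  by_cases hc : c ≤ 1 / 2
  · refine key ⟨c, h0, h1⟩ ⟨c + r, by linarith, by linarith⟩ (by simpa using hr0) ?_
    intro u hu hu'
    have e1 : c ≤ (u : ℝ) := hu
    have e2 : (u : ℝ) ≤ c + r := hu'
    rw [abs_lt]; constructor <;> linarith
  · push Not at hc
    refine key ⟨c - r, by linarith, by linarith⟩ ⟨c, h0, h1⟩ (by simpa using hr0) ?_
    intro u hu hu'
    have e1 : c - r ≤ (u : ℝ) := hu
    have e2 : (u : ℝ) ≤ c := hu'
    rw [abs_lt]; constructor <;> linarith

theorem meas_target (n L : ℕ) (z : ℤ × ℤ) : Measurable (fun U : Config => target n L U z) := by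
  unfold target lin
  split_ifs
  · exact ((((meas_coord _).sub_const _).const_mul _).const_add _)
  · exact ((((meas_coord _).sub_const _).const_mul _).const_add _)
  · exact ((((meas_coord _).sub_const _).const_mul _).const_add _)
  · exact ((((meas_coord _).sub_const _).const_mul _).const_add _)
  · exact measurable_const

/-- the configurations outside the box which can be completed to a member of `A` -/
def evG (n : ℕ) (A : Set Config) : Set Config := {U | law {V | mix (box n) (U, V) ∈ A} ≠ 0}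

/-- the modified event -/
def evT (n L : ℕ) (δ : ℝ) (A : Set Config) : Set Config :=
  evG n A ∩ ⋂ z ∈ box n, {U | |(U z : ℝ) - target n L U z| < δ}

theorem meas_evG (n : ℕ) {A : Set Config} (hA : MeasurableSet A) : MeasurableSet (evG n A) := by
  have h1 : MeasurableSet (mix (box n) ⁻¹' A) := measurable_mix (box n) hA
  have h2 : Measurable fun U : Config => law (Prod.mk U ⁻¹' (mix (box n) ⁻¹' A)) :=
    measurable_measure_prodMk_left h1
  exact h2 (MeasurableSet.singleton (0 : ℝ≥0∞)).compl

theorem meas_evT (n L : ℕ) (δ : ℝ) {A : Set Config} (hA : MeasurableSet A) :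
    MeasurableSet (evT n L δ A) := by
  refine (meas_evG n hA).inter (Finset.measurableSet_biInter _ fun z _ => ?_)
  exact measurableSet_lt ((meas_coord z).sub (meas_target n L z)).abs measurable_const

theorem mix_mix (B : Finset (ℤ × ℤ)) (U V W : Config) : mix B (mix B (U, V), W) = mix B (U, W) := by
  funext z
  unfold mix
  by_cases h : z ∈ B <;> simp [h]

theorem mix_off (B : Finset (ℤ × ℤ)) (U V : Config) {z : ℤ × ℤ} (h : z ∉ B) :
    mix B (U, V) z = U z := by
  unfold mix
  simp [h]

theorem mix_on (B : Finset (ℤ × ℤ)) (U V : Config) {z : ℤ × ℤ} (h : z ∈ B) :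
    mix B (U, V) z = V z := by
  unfold mix
  simp [h]

theorem law_evT_ne_zero (n L : ℕ) {δ : ℝ} (hδ : 0 < δ) {A : Set Config} (hA : MeasurableSet A)
    (h0 : law A ≠ 0) : law (evT n L δ A) ≠ 0 := by
  intro hT
  -- the event `G` has positive probability
  have hG : law (evG n A) ≠ 0 := by
    intro hG
    apply h0
    rw [← map_mix (box n), Measure.map_apply (measurable_mix _) hA,
      Measure.measure_prod_null (measurable_mix _ hA)]
    filter_upwards [measure_eq_zero_iff_ae_notMem.1 hG] with U hU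
    by_contra hne
    exact hU hne
  apply hG
  rw [← map_mix (box n), Measure.map_apply (measurable_mix _) (meas_evT n L δ hA),
    Measure.measure_prod_null (measurable_mix _ (meas_evT n L δ hA))] at hT
  rw [measure_eq_zero_iff_ae_notMem]
  filter_upwards [hT] with U hU hUG
  have hsub : Set.pi (box n : Set (ℤ × ℤ)) (fun z => {u : unitInterval |
      |(u : ℝ) - target n L U z| < δ}) ⊆ Prod.mk U ⁻¹' (mix (box n) ⁻¹' evT n L δ A) := by
    intro V hV
    rw [mem_preimage, mem_preimage]
    refine ⟨?_, ?_⟩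
    · show law {W | mix (box n) (mix (box n) (U, V), W) ∈ A} ≠ 0
      simp only [mix_mix]
      exact hUG
    · rw [mem_iInter₂]
      intro z hz
      have h1 : target n L (mix (box n) (U, V)) z = target n L U z :=
        target_congr (fun w hw => mix_off _ _ _ hw) z
      show |(mix (box n) (U, V) z : ℝ) - target n L (mix (box n) (U, V)) z| < δ
      rw [h1, mix_on _ _ _ hz]
      exact hV z hz
  have h2 := measure_mono_null hsub hU
  unfold law at h2
  rw [Measure.infinitePi_pi, Finset.prod_eq_zero_iff] at h2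
  · obtain ⟨z, hz, h3⟩ := h2
    exact vol_pos (target_mem U hz).1 (target_mem U hz).2 hδ h3
  · intro z _
    exact measurableSet_lt (measurable_subtype_coe.sub_const _).abs measurable_const

/-! ### Translations -/

theorem measurable_shift (x : ℤ × ℤ) : Measurable (shift x) :=
  measurable_pi_iff.2 fun _ => measurable_pi_apply _

theorem map_shift (x : ℤ × ℤ) : law.map (shift x) = law :=
  MeasureTheory.Measure.map_infinitePi_infinitePi_of_inj
    (P := fun _ : ℤ × ℤ => (volume : Measure unitInterval)) (f := fun z : ℤ × ℤ => z + x)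
    (add_left_injective x)

/-- An event which implies a trifurcation at the box has probability zero. -/
theorem law_zero_of_tri {ε : ℝ} {n : ℕ} {T : Set Config} (hT : MeasurableSet T)
    (h : ∀ U ∈ T, ∃ E : Fin 3 → Set (ℤ × ℤ), Tri (Open ε U) (box n : Set (ℤ × ℤ)) E ∧
      ∀ l, (E l).Infinite) : law T = 0 := by
  classical
  set c : ℤ × ℤ → ℤ × ℤ := fun k => (((2 * n + 1 : ℕ) : ℤ) * k.1, ((2 * n + 1 : ℕ) : ℤ) * k.2) with hc
  have hpre : ∀ k, law (shift (c k) ⁻¹' T) = law T := by
    intro k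
    rw [← Measure.map_apply (measurable_shift _) hT, map_shift]
  have key : ∀ R : ℕ, ((2 * R + 1) ^ 2 : ℕ) * law T ≤
      ((4 * (2 * ((2 * n + 1) * R + n + 1) + 1) : ℕ) : ℝ≥0∞) := by
    intro R
    calc ((2 * R + 1) ^ 2 : ℕ) * law T = ∑ k ∈ box R, law (shift (c k) ⁻¹' T) := by
          rw [Finset.sum_congr rfl fun k _ => hpre k, Finset.sum_const, card_box, nsmul_eq_mul]
      _ = ∑ k ∈ box R, ∫⁻ U, (shift (c k) ⁻¹' T).indicator 1 U ∂law := by
          refine Finset.sum_congr rfl fun k _ => ?_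
          rw [lintegral_indicator_one (measurable_shift _ hT)]
      _ = ∫⁻ U, ∑ k ∈ box R, (shift (c k) ⁻¹' T).indicator 1 U ∂law := by
          rw [lintegral_finset_sum]
          intro k _
          exact measurable_one.indicator (measurable_shift _ hT)
      _ ≤ ∫⁻ _U, ((4 * (2 * ((2 * n + 1) * R + n + 1) + 1) : ℕ) : ℝ≥0∞) ∂law := by
          refine lintegral_mono fun U => ?_
          have h1 : ∑ k ∈ box R, (shift (c k) ⁻¹' T).indicator (1 : Config → ℝ≥0∞) U =
              (((box R).filter fun k => shift (c k) U ∈ T).card : ℝ≥0∞) := by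
            rw [Finset.card_filter, Nat.cast_sum]
            refine Finset.sum_congr rfl fun k _ => ?_
            by_cases hk : shift (c k) U ∈ T
            · rw [if_pos hk, indicator_of_mem (show U ∈ shift (c k) ⁻¹' T from hk)]
              simp
            · rw [if_neg hk, indicator_of_notMem (show U ∉ shift (c k) ⁻¹' T from hk)]
              simp
          show ∑ k ∈ box R, (shift (c k) ⁻¹' T).indicator (1 : Config → ℝ≥0∞) U ≤ _
          rw [h1]
          exact_mod_cast count_tri (ε := ε) (U := U) (n := n) (R := R)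
            ((box R).filter fun k => shift (c k) U ∈ T) (Finset.filter_subset _ _)
            fun k hk => h _ (Finset.mem_filter.1 hk).2
      _ = _ := by rw [lintegral_const, measure_univ, mul_one]
  by_contra hne
  have hfin : law T ≠ ∞ := measure_ne_top _ _
  set p : ℝ := (law T).toReal with hp
  have hp0 : 0 < p := ENNReal.toReal_pos hne hfin
  have key' : ∀ R : ℕ, ((2 * R + 1 : ℝ)) ^ 2 * p ≤
      4 * (2 * ((2 * n + 1) * R + n + 1) + 1) := by
    intro R
    have h1 := ENNReal.toReal_mono (ENNReal.natCast_ne_top _) (key R)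
    rw [ENNReal.toReal_mul, ENNReal.toReal_natCast, ENNReal.toReal_natCast] at h1
    push_cast at h1
    exact h1
  obtain ⟨R, hR⟩ := exists_nat_gt ((8 * n + 12 : ℝ) / p)
  have h1 := key' R
  rw [div_lt_iff₀ hp0] at hR
  have hn : (0 : ℝ) ≤ n := Nat.cast_nonneg n
  have hR0 : (0 : ℝ) ≤ R := Nat.cast_nonneg R
  have h2 : 4 * (2 * ((2 * n + 1) * R + n + 1) + 1) ≤ (8 * n + 12 : ℝ) * (2 * R + 1) := by
    nlinarith
  have h3 : (2 * R + 1 : ℝ) * ((2 * R + 1) * p) ≤ (2 * R + 1) * (8 * n + 12) := by
    calc (2 * R + 1 : ℝ) * ((2 * R + 1) * p) = (2 * R + 1) ^ 2 * p := by ring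
      _ ≤ (8 * n + 12) * (2 * R + 1) := h1.trans h2
      _ = _ := by ring
  have h4 := le_of_mul_le_mul_left h3 (by positivity)
  nlinarith

/-! ### The corners -/

/-- the potentials next to the corners of the box are close to `1/2` -/
def evK (L : ℕ) (δ : ℝ) (n : ℕ) : Set Config :=
  Set.pi (cornerSet n L : Set (ℤ × ℤ)) (fun _ => {u : unitInterval | |(u : ℝ) - 1 / 2| < δ})

theorem meas_J (δ : ℝ) : MeasurableSet {u : unitInterval | |(u : ℝ) - 1 / 2| < δ} :=
  measurableSet_lt (measurable_subtype_coe.sub_const _).abs measurable_const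

theorem meas_evK (L : ℕ) (δ : ℝ) (n : ℕ) : MeasurableSet (evK L δ n) :=
  MeasurableSet.pi (cornerSet n L).countable_toSet fun _ _ => meas_J δ

theorem law_evK (L : ℕ) (δ : ℝ) (n : ℕ) :
    law (evK L δ n) = volume {u : unitInterval | |(u : ℝ) - 1 / 2| < δ} ^ (cornerSet n L).card := by
  unfold law evK
  rw [Measure.infinitePi_pi _ fun _ _ => meas_J δ, Finset.prod_const]

theorem card_cornerSet (n L : ℕ) : (cornerSet n L).card ≤ (2 * (2 * L + 1)) ^ 2 := by
  classical
  set S : Finset ℤ := Finset.Icc ((n : ℤ) - 2 * L + 1) (n + 1) ∪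
    Finset.Icc (-((n : ℤ) + 1)) (-((n : ℤ) - 2 * L + 1)) with hS
  have hsub : cornerSet n L ⊆ S ×ˢ S := by
    intro z hz
    rw [cornerSet, Finset.mem_filter, mem_box] at hz
    obtain ⟨⟨h1, h2⟩, -, h3, h4⟩ := hz
    push_cast at h1 h2
    rw [Finset.mem_product, hS, Finset.mem_union, Finset.mem_union, Finset.mem_Icc, Finset.mem_Icc,
      Finset.mem_Icc, Finset.mem_Icc]
    constructor
    · rcases abs_cases z.1 with h | h <;> omega
    · rcases abs_cases z.2 with h | h <;> omega
  have hcard : S.card ≤ 2 * (2 * L + 1) := by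
    refine (Finset.card_union_le _ _).trans ?_
    rw [Int.card_Icc, Int.card_Icc]
    omega
  refine (Finset.card_le_card hsub).trans ?_
  rw [Finset.card_product, sq]
  exact Nat.mul_le_mul hcard hcard

theorem disjoint_corner {L m n : ℕ} (h : m ≠ n) : Disjoint (cornerSet m L) (cornerSet n L) := by
  rw [Finset.disjoint_left]
  intro z hz hz'
  rw [cornerSet, Finset.mem_filter] at hz hz'
  omega

theorem indep_evK (L : ℕ) (δ : ℝ) : ProbabilityTheory.iIndepSet (evK L δ) law := by
  classical
  rw [ProbabilityTheory.iIndepSet_iff_meas_biInter (meas_evK L δ)]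
  intro s
  have h1 : ⋂ i ∈ s, evK L δ i = Set.pi ((s.biUnion fun n => cornerSet n L : Finset (ℤ × ℤ)) :
      Set (ℤ × ℤ)) (fun _ => {u : unitInterval | |(u : ℝ) - 1 / 2| < δ}) := by
    ext U
    simp only [mem_iInter, evK, Set.mem_pi, Finset.mem_coe, Finset.mem_biUnion]
    exact ⟨fun h z ⟨n, hn, hz⟩ => h n hn z hz, fun h n hn z hz => h z ⟨n, hn, hz⟩⟩
  have h2 : law (⋂ i ∈ s, evK L δ i) = volume {u : unitInterval | |(u : ℝ) - 1 / 2| < δ} ^
      (s.biUnion fun n => cornerSet n L).card := by
    rw [h1]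
    unfold law
    rw [Measure.infinitePi_pi _ fun _ _ => meas_J δ, Finset.prod_const]
  rw [h2, Finset.card_biUnion fun i _ j _ hij => disjoint_corner hij, ← Finset.prod_pow_eq_pow_sum]
  exact Finset.prod_congr rfl fun n _ => (law_evK L δ n).symm

theorem law_limsup_evK (L : ℕ) {δ : ℝ} (hδ : 0 < δ) : law (limsup (evK L δ) atTop) = 1 := by
  refine ProbabilityTheory.measure_limsup_eq_one (meas_evK L δ) (indep_evK L δ) ?_
  set q := volume {u : unitInterval | |(u : ℝ) - 1 / 2| < δ} with hq
  have hq0 : q ≠ 0 := vol_pos (by norm_num) (by norm_num) hδ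
  have hq1 : q ≤ 1 := prob_le_one
  have hle : ∀ n, q ^ ((2 * (2 * L + 1)) ^ 2) ≤ law (evK L δ n) := by
    intro n
    rw [law_evK]
    exact pow_le_pow_right_of_le_one' hq1 (card_cornerSet n L)
  refine top_unique ?_
  rw [← ENNReal.tsum_const_eq_top_of_ne_zero (α := ℕ) (pow_ne_zero ((2 * (2 * L + 1)) ^ 2) hq0)]
  exact ENNReal.tsum_le_tsum hle

/-! ### The main result -/

theorem tri_of_evT {ε δ : ℝ} {n L : ℕ} (hL : 0 < L) (hn : 4 * L ≤ n) (hLε : 1 / (L : ℝ) ≤ ε)
    (hδ : 4 * δ ≤ ε) (hδ0 : 0 < δ) {U : Config} (hU : U ∈ evT n L δ (evH ε n ∩ evK L δ n)) :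
    ∃ E : Fin 3 → Set (ℤ × ℤ), Tri (Open ε U) (box n : Set (ℤ × ℤ)) E ∧ ∀ l, (E l).Infinite := by
  obtain ⟨hG, hin⟩ := hU
  obtain ⟨V, hV⟩ := nonempty_of_measure_ne_zero hG
  obtain ⟨⟨a, ha, hinf, hne⟩, hK⟩ := hV
  rw [mem_iInter₂] at hin
  have hcor : ∀ z ∈ cornerSet n L, |(U z : ℝ) - 1 / 2| < δ := by
    intro z hz
    have h1 := hK z hz
    have h2 : z ∉ box n := by
      rw [cornerSet, Finset.mem_filter] at hz
      rw [mem_box_nm]
      omega
    rw [mix_off _ _ _ h2] at h1
    exact h1
  obtain ⟨h1, h2⟩ := good_box hL hn hLε hδ hδ0 U hin hcor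
  refine ⟨_, tri_of_agree (U₀ := mix (box n) (U, V)) (fun z hz => (mix_off _ _ _ hz).symm) h1 h2 a
    ha ?_, ?_⟩
  · intro l m hlm h
    apply hne l m hlm
    rw [h]
    exact cluster_refl _ _ _
  · intro l
    exact (hinf l).sdiff (Finset.finite_toSet _)

theorem law_HK {ε δ : ℝ} {n L : ℕ} (hL : 0 < L) (hn : 4 * L ≤ n) (hLε : 1 / (L : ℝ) ≤ ε)
    (hδ : 4 * δ ≤ ε) (hδ0 : 0 < δ) : law (evH ε n ∩ evK L δ n) = 0 := by
  by_contra hne
  have hm : MeasurableSet (evH ε n ∩ evK L δ n) := (meas_evH ε n).inter (meas_evK L δ n)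
  exact law_evT_ne_zero n L hδ0 hm hne
    (law_zero_of_tri (meas_evT n L δ hm) fun U hU => tri_of_evT hL hn hLε hδ hδ0 hU)

theorem law_H {ε : ℝ} (hε : 0 < ε) (n : ℕ) : law (evH ε n) = 0 := by
  obtain ⟨L, hL⟩ := exists_nat_gt (1 / ε)
  have hL0 : 0 < L := by
    have : (0 : ℝ) < L := lt_trans (by positivity) hL
    exact_mod_cast this
  have hL0' : (0 : ℝ) < L := by exact_mod_cast hL0
  have hLε : 1 / (L : ℝ) ≤ ε := by
    rw [div_lt_iff₀ hε] at hL
    rw [div_le_iff₀ hL0']
    linarith
  have hδ0 : 0 < ε / 4 := by positivity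
  by_contra hne
  have h1 := law_limsup_evK L hδ0
  have hmeas : MeasurableSet (limsup (evK L (ε / 4)) atTop) :=
    MeasurableSet.measurableSet_limsup (meas_evK L (ε / 4))
  have h2 : law (limsup (evK L (ε / 4)) atTop)ᶜ = 0 := by
    rw [prob_compl_eq_zero_iff hmeas]
    exact h1
  apply hne
  have hsub : evH ε n ⊆ (limsup (evK L (ε / 4)) atTop)ᶜ ∪
      ⋃ m : ℕ, ⋃ _ : 4 * L ≤ m, (evH ε m ∩ evK L (ε / 4) m) := by
    intro U hU
    by_cases hUl : U ∈ limsup (evK L (ε / 4)) atTop
    · right
      rw [mem_limsup_iff_frequently_mem, frequently_atTop] at hUl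
      obtain ⟨m, hm, hUm⟩ := hUl (max n (4 * L))
      rw [mem_iUnion₂]
      exact ⟨m, (le_max_right _ _).trans hm, evH_mono ε ((le_max_left _ _).trans hm) hU, hUm⟩
    · exact Or.inl hUl
  refine measure_mono_null hsub (measure_union_null h2 ?_)
  exact measure_iUnion_null fun m => measure_iUnion_null fun hm =>
    law_HK hL0 hm hLε (by linarith) hδ0

theorem encard_le_two {ε : ℝ} {U : Config} (h : ∀ n, U ∉ evH ε n) :
    (infiniteClusters ε U).encard ≤ 2 := by
  by_contra hcon
  push Not at hcon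
  have h3 : (3 : ℕ∞) ≤ (infiniteClusters ε U).encard := by
    have := Order.add_one_le_of_lt hcon
    rwa [show (2 : ℕ∞) + 1 = 3 by norm_num] at this
  obtain ⟨t, ht, ht3⟩ := Set.exists_subset_encard_eq h3
  rw [Set.encard_eq_three] at ht3
  obtain ⟨A, B, C, hAB, hAC, hBC, rfl⟩ := ht3
  have hS : ∀ S ∈ ({A, B, C} : Set (Set (ℤ × ℤ))), S.Infinite ∧ ∃ a, S = cluster ε U a := fun S hS =>
    ht hS
  obtain ⟨hA, a, rfl⟩ := hS A (by simp)
  obtain ⟨hB, b, rfl⟩ := hS B (by simp)
  obtain ⟨hC, c, rfl⟩ := hS C (by simp)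
  set v : Fin 3 → ℤ × ℤ := ![a, b, c] with hv
  set n : ℕ := (max (nm a) (max (nm b) (nm c))).toNat with hn
  have hnm : ∀ l, v l ∈ box n := by
    intro l
    rw [mem_box_nm]
    have h1 := le_max_left (nm a) (max (nm b) (nm c))
    have h2 := le_max_right (nm a) (max (nm b) (nm c))
    have h3 := le_max_left (nm b) (nm c)
    have h4 := le_max_right (nm b) (nm c)
    fin_cases l
    · show nm a ≤ n; omega
    · show nm b ≤ n; omega
    · show nm c ≤ n; omega
  refine h n ⟨v, hnm, ?_, ?_⟩
  · intro l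
    fin_cases l
    exacts [hA, hB, hC]
  · intro l m hlm hmem
    have := cluster_eq hmem
    revert this hlm
    fin_cases l <;> fin_cases m <;> intro hlm this
    all_goals first
      | exact hlm rfl
      | exact hAB this
      | exact hAB this.symm
      | exact hAC this
      | exact hAC this.symm
      | exact hBC this
      | exact hBC this.symm

theorem main_pos {ε : ℝ} (hε : 0 < ε) : ∀ᵐ U ∂law, (infiniteClusters ε U).encard ≤ 2 := by
  have h : ∀ᵐ U ∂law, ∀ n, U ∉ evH ε n := by
    rw [ae_all_iff]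
    intro n
    exact measure_eq_zero_iff_ae_notMem.1 (law_H hε n)
  filter_upwards [h] with U hU
  exact encard_le_two hU

/-- for `ε = 0` there are no cycles -/
theorem main_zero (U : Config) : infiniteClusters 0 U = ∅ := by
  rw [Set.eq_empty_iff_forall_notMem]
  rintro S ⟨hinf, a, rfl⟩
  have hmono : ∀ x y, Reach 0 U x y → x = y ∨ (U y : ℝ) < U x := by
    intro x y h
    induction h with
    | refl => exact Or.inl rfl
    | tail _ hbc ih =>
      have h1 := hbc.2
      rw [add_zero] at h1
      rcases ih with ih | ih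
      · rw [ih]; exact Or.inr h1
      · exact Or.inr (h1.trans ih)
  apply hinf
  refine (Set.finite_singleton a).subset fun b hb => ?_
  rcases hmono a b hb.1 with h | h
  · exact h.symm
  · rcases hmono b a hb.2 with h' | h'
    · exact h'
    · exact absurd (h.trans h') (lt_irrefl _)

theorem main {ε : ℝ} (hε : 0 ≤ ε) : ∀ᵐ U ∂law, (infiniteClusters ε U).encard ≤ 2 := by
  rcases hε.eq_or_lt with h | h
  · rw [← h]
    refine Filter.Eventually.of_forall fun U => ?_
    rw [main_zero, Set.encard_empty]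
    exact bot_le
  · exact main_pos h

end Pool.Agent.J4.H90.Lightning
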